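import Pool.Agent.Helper69.TC.Symm

/-!
Chains of green sites are geodesics and can be straightened.
-/

set_option autoImplicit false

namespace Pool.Agent.Helper69.TC

variable {seed : Site → Option Color} {A : Site → Color → ℕ → Prop}

theorem adj_h {c : Color} (hc : c ≠ Color.red) {x x' y y' : ℤ} (h : x' = x + 1 ∨ x' = x - 1)
    (hy : y' = y) : Adj c (x, y) (x', y') := by
  subst hy
  cases c
  · rcases h with h | h <;> subst h <;> simp [Adj]
  · exact absurd rfl hc
  · rcases h with h | h <;> subst h <;> simp [Adj]

theorem adj_v {c : Color} (hc : c ≠ Color.blue) {x x' y y' : ℤ} (h : y' = y + 1 ∨ y' = y - 1)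
    (hx : x' = x) : Adj c (x, y) (x', y') := by
  subst hx
  cases c
  · exact absurd rfl hc
  · rcases h with h | h <;> subst h <;> simp [Adj]
  · rcases h with h | h <;> subst h <;> simp [Adj]

theorem exists_chain (hG : Growth seed A) {z : Site} {n : ℕ} (h : A z Color.green n) :
    ∃ g, Chain A g z n := by
  induction n generalizing z with
  | zero => exact ⟨z, Chain.base h⟩
  | succ n ih =>
    obtain ⟨y, hy, hyA⟩ := hG.pred h
    obtain ⟨g, hg⟩ := ih hyA
    exact ⟨g, Chain.step hg hy h⟩

theorem blue_line (hG : Growth seed A) {z : Site} {n : ℕ} (h : A z Color.blue n) :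
    ∃ b : ℤ, seed (b, z.2) = some Color.blue ∧ (z.1 - b).natAbs = n ∧
      ∀ x : ℤ, (b ≤ x ∧ x ≤ z.1 ∨ z.1 ≤ x ∧ x ≤ b) → A (x, z.2) Color.blue (x - b).natAbs := by
  induction n generalizing z with
  | zero =>
    refine ⟨z.1, (hG.init z Color.blue).mp h, by simp, ?_⟩
    intro x hx
    have : x = z.1 := by omega
    subst this
    simpa using h
  | succ n ih =>
    obtain ⟨y, hy, hyA⟩ := hG.pred h
    obtain ⟨b, hb, hn, hl⟩ := ih hyA
    have hy2 : y.2 = z.2 ∧ (y.1 = z.1 + 1 ∨ y.1 = z.1 - 1) := by
      simp only [Adj, Prod.ext_iff] at hy; omega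
    rw [hy2.1] at hb hl
    have hz : (z.1, z.2) = z := rfl
    have hnot : ¬ (b ≤ z.1 ∧ z.1 ≤ y.1 ∨ y.1 ≤ z.1 ∧ z.1 ≤ b) := by
      intro hc
      have h1 := hl z.1 hc
      rw [hz] at h1
      have h2 := hG.time_eq h h1
      omega
    refine ⟨b, hb, by omega, ?_⟩
    intro x hx
    by_cases hxz : x = z.1
    · subst hxz
      rw [hz]
      have : (z.1 - b).natAbs = n + 1 := by omega
      rw [this]; exact h
    · exact hl x (by omega)

theorem red_line (hG : Growth seed A) {z : Site} {n : ℕ} (h : A z Color.red n) :
    ∃ b : ℤ, seed (z.1, b) = some Color.red ∧ (z.2 - b).natAbs = n ∧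
      ∀ y : ℤ, (b ≤ y ∧ y ≤ z.2 ∨ z.2 ≤ y ∧ y ≤ b) → A (z.1, y) Color.red (y - b).natAbs := by
  obtain ⟨b, hb, hn, hl⟩ := blue_line hG.swap (z := (z.2, z.1)) (n := n) h
  refine ⟨b, ?_, hn, ?_⟩
  · obtain ⟨a, ha, hb⟩ := Option.map_eq_some_iff.mp hb
    simp only at ha
    rw [ha]
    have : swapC a = swapC Color.red := hb
    rw [swapC_inj this]
  · intro y hy
    exact hl y hy

theorem Chain.green {g z : Site} {n : ℕ} (h : Chain A g z n) : A z Color.green n := by
  cases h <;> assumption

theorem Chain.source {g z : Site} {n : ℕ} (h : Chain A g z n) : A g Color.green 0 := by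
  induction h <;> assumption

theorem Chain.dist_le {g z : Site} {n : ℕ} (h : Chain A g z n) : dist1 z g ≤ n := by
  induction h with
  | base h => simp [dist1]
  | step h1 h2 h3 ih =>
    rename_i y z n
    have h4 := adj_dist h2
    have h5 := dist1_triangle z y g
    have h6 := dist1_comm z y
    omega

theorem Chain.reflX {g z : Site} {n : ℕ} (h : Chain A g z n) :
    Chain (fun z c n => A (-z.1, z.2) c n) (-g.1, g.2) (-z.1, z.2) n := by
  induction h with
  | base h => exact Chain.base (by simpa using h)
  | step h1 h2 h3 ih =>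
    refine Chain.step ih ?_ (by simpa using h3)
    simp only [Adj, Prod.ext_iff] at h2 ⊢
    omega

theorem Chain.reflY {g z : Site} {n : ℕ} (h : Chain A g z n) :
    Chain (fun z c n => A (z.1, -z.2) c n) (g.1, -g.2) (z.1, -z.2) n := by
  induction h with
  | base h => exact Chain.base (by simpa using h)
  | step h1 h2 h3 ih =>
    refine Chain.step ih ?_ (by simpa using h3)
    simp only [Adj, Prod.ext_iff] at h2 ⊢
    omega

theorem Chain.swap {g z : Site} {n : ℕ} (h : Chain A g z n) :
    Chain (fun z c n => A (z.2, z.1) (swapC c) n) (g.2, g.1) (z.2, z.1) n := by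
  induction h with
  | base h => exact Chain.base h
  | step h1 h2 h3 ih =>
    refine Chain.step ih ?_ h3
    simp only [Adj, Prod.ext_iff] at h2 ⊢
    omega

theorem NoCoin.reflX (h : NoCoin seed) : NoCoin (fun z => seed (-z.1, z.2)) := by
  intro g w c hg hw hc
  have := h _ _ c hg hw hc
  simp only at this
  omega

theorem NoCoin.reflY (h : NoCoin seed) : NoCoin (fun z => seed (z.1, -z.2)) := by
  intro g w c hg hw hc
  have := h _ _ c hg hw hc
  simp only at this
  omega

theorem NoCoin.swap (h : NoCoin seed) : NoCoin (fun z => (seed (z.2, z.1)).map swapC) := by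
  intro g w c hg hw hc
  obtain ⟨a, ha, ha'⟩ := Option.map_eq_some_iff.mp hg
  obtain ⟨b, hb, hb'⟩ := Option.map_eq_some_iff.mp hw
  have h1 : a = Color.green := swapC_inj (c' := Color.green) ha'
  subst h1
  have h2 : b ≠ Color.green := by
    rintro rfl
    exact hc hb'.symm
  have := h _ _ b ha hb h2
  simp only at this
  omega

/-- The last up move of a geodesic chain which goes right and up. -/
theorem last_up {g z : Site} {n : ℕ} (h : Chain A g z n) :
    dist1 z g = n → g.1 ≤ z.1 → g.2 < z.2 →
    ∃ k i : ℕ, n = i + 1 + k ∧ g.1 + k ≤ z.1 ∧ Chain A g (z.1 - k, z.2 - 1) i ∧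
      ∀ j : ℕ, j ≤ k → A (z.1 - j, z.2) Color.green (n - j) := by
  induction h with
  | base h => intro _ _ h2; omega
  | step h1 h2 h3 ih =>
    rename_i y z n
    intro hd hx hy
    have hle := h1.dist_le
    have hyd : dist1 y g = n := by
      have h4 := adj_dist h2
      have h5 := dist1_triangle z y g
      have h6 := dist1_comm z y
      omega
    simp only [Adj] at h2
    rcases h2 with h2 | h2 | h2 | h2
    · subst h2; simp only [dist1] at hd hyd; omega
    · subst h2
      simp only [dist1] at hd hyd
      obtain ⟨k, i, hn, hgk, hch, hl⟩ := ih (by simp only [dist1]; omega) (by simp only; omega)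
        (by simp only; omega)
      simp only at hgk hch hl
      refine ⟨k + 1, i, by omega, by push_cast; omega, ?_, ?_⟩
      · have : z.1 - ((k + 1 : ℕ) : ℤ) = z.1 - 1 - k := by push_cast; ring
        rw [this]; exact hch
      · intro j hj
        rcases j with _ | j
        · simpa using h3
        · have h7 := hl j (by omega)
          have : z.1 - ((j + 1 : ℕ) : ℤ) = z.1 - 1 - j := by push_cast; ring
          rw [this]
          have h8 : n + 1 - (j + 1) = n - j := by omega
          rw [h8]; exact h7
    · subst h2; simp only [dist1] at hd hyd; omega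
    · subst h2
      refine ⟨0, n, by omega, by simpa using hx, by simpa using h1, ?_⟩
      intro j hj
      have : j = 0 := by omega
      subst this
      simpa using h3

/-- The last left move of a geodesic chain which goes left and down. -/
theorem last_left {g z : Site} {n : ℕ} (h : Chain A g z n) :
    dist1 z g = n → z.1 < g.1 → z.2 ≤ g.2 →
    ∃ k i : ℕ, n = i + 1 + k ∧ z.2 + k ≤ g.2 ∧ Chain A g (z.1 + 1, z.2 + k) i ∧
      ∀ j : ℕ, j ≤ k → A (z.1, z.2 + j) Color.green (n - j) := by
  induction h with
  | base h => intro _ _ h2; omega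
  | step h1 h2 h3 ih =>
    rename_i y z n
    intro hd hx hy
    have hle := h1.dist_le
    have hyd : dist1 y g = n := by
      have h4 := adj_dist h2
      have h5 := dist1_triangle z y g
      have h6 := dist1_comm z y
      omega
    simp only [Adj] at h2
    rcases h2 with h2 | h2 | h2 | h2
    · subst h2
      refine ⟨0, n, by omega, by simpa using hy, by simpa using h1, ?_⟩
      intro j hj
      have : j = 0 := by omega
      subst this
      simpa using h3
    · subst h2; simp only [dist1] at hd hyd; omega
    · subst h2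
      simp only [dist1] at hd hyd
      obtain ⟨k, i, hn, hgk, hch, hl⟩ := ih (by simp only [dist1]; omega) (by simp only; omega)
        (by simp only; omega)
      simp only at hgk hch hl
      refine ⟨k + 1, i, by omega, by push_cast; omega, ?_, ?_⟩
      · have : z.2 + ((k + 1 : ℕ) : ℤ) = z.2 + 1 + k := by push_cast; ring
        rw [this]; exact hch
      · intro j hj
        rcases j with _ | j
        · simpa using h3
        · have h7 := hl j (by omega)
          have : z.2 + ((j + 1 : ℕ) : ℤ) = z.2 + 1 + j := by push_cast; ring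
          rw [this]
          have h8 : n + 1 - (j + 1) = n - j := by omega
          rw [h8]; exact h7
    · subst h2; simp only [dist1] at hd hyd; omega

theorem core_down_right (hG : Growth seed A) (hN : NoCoin seed) {g y : Site} {n : ℕ}
    (h : Chain A g y n) (hd : dist1 y g = n) (h1 : g.1 ≤ y.1) (h2 : g.2 < y.2)
    (hz : A (y.1, y.2 - 1) Color.green (n + 1)) : False := by
  obtain ⟨k, i, hn, hgk, hch, hl⟩ := last_up h hd h1 h2
  have hchd : dist1 (y.1 - k, y.2 - 1) g = i := by
    simp only [dist1] at hd ⊢; omega
  have hgreen := hch.green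
  have hgs := (hG.init g Color.green).mp h.source
  have hQ : ∀ j : ℕ, j ≤ k → ∃ c n', A (y.1 - k + j, y.2 - 1) c n' ∧ n' ≤ i + j ∧
      c ≠ Color.red := by
    intro j
    induction j with
    | zero => intro _; exact ⟨Color.green, i, by simpa using hgreen, by omega, by decide⟩
    | succ j ih =>
      intro hj
      obtain ⟨c, n', hA, hn', hc⟩ := ih (by omega)
      have hadj : Adj c (y.1 - k + j, y.2 - 1) (y.1 - k + (j + 1 : ℕ), y.2 - 1) :=
        adj_h hc (by push_cast; omega) rfl
      obtain ⟨c', m, hm, hA'⟩ := hG.spread hA hadj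
      refine ⟨c', m, hA', by omega, ?_⟩
      rintro rfl
      obtain ⟨b, hb, hbm, hbl⟩ := red_line hG hA'
      simp only at hb hbm hbl
      have hu := hl (k - (j + 1)) (by omega)
      have hcast : y.1 - ((k - (j + 1) : ℕ) : ℤ) = y.1 - k + (j + 1 : ℕ) := by
        push_cast [Nat.cast_sub hj]; ring
      rw [hcast] at hu
      have hnb : b ≤ y.2 - 1 := by
        by_contra hcon
        have h5 := hbl y.2 (by omega)
        have := hG.color_eq h5 hu
        cases this
      have hadj2 : Adj Color.red (y.1 - k + (j + 1 : ℕ), y.2 - 1) (y.1 - k + (j + 1 : ℕ), y.2) :=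
        adj_v (by decide) (by omega) rfl
      obtain ⟨c'', m', hm', hA''⟩ := hG.spread hA' hadj2
      have htime := hG.time_eq hA'' hu
      have hN2 := hN g (y.1 - k + (j + 1 : ℕ), b) Color.red hgs hb (by decide)
      simp only [dist1] at hchd
      push_cast at hN2
      clear hl hbl hch h hgreen hgs hb hu hA'' hadj2 hadj hA hA' hz ih hN hG
      omega
  obtain ⟨c, n', hA, hn', hc⟩ := hQ k le_rfl
  have h5 : y.1 - (k : ℤ) + k = y.1 := by ring
  rw [h5] at hA
  have := hG.time_eq hA hz
  omega

theorem core_down (hG : Growth seed A) (hN : NoCoin seed) {g y : Site} {n : ℕ}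
    (h : Chain A g y n) (hd : dist1 y g = n) (h2 : g.2 < y.2)
    (hz : A (y.1, y.2 - 1) Color.green (n + 1)) : False := by
  rcases le_total g.1 y.1 with h1 | h1
  · exact core_down_right hG hN h hd h1 h2 hz
  · exact core_down_right hG.reflX hN.reflX h.reflX (by simp only [dist1] at hd ⊢; omega)
      (by simpa using h1) h2 (by simpa using hz)

theorem core_up (hG : Growth seed A) (hN : NoCoin seed) {g y : Site} {n : ℕ}
    (h : Chain A g y n) (hd : dist1 y g = n) (h2 : y.2 < g.2)
    (hz : A (y.1, y.2 + 1) Color.green (n + 1)) : False := by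
  refine core_down hG.reflY hN.reflY h.reflY (by simp only [dist1] at hd ⊢; omega)
    (by simpa using h2) ?_
  have : -(-y.2 - 1) = y.2 + 1 := by ring
  simpa [this] using hz

theorem core_left (hG : Growth seed A) (hN : NoCoin seed) {g y : Site} {n : ℕ}
    (h : Chain A g y n) (hd : dist1 y g = n) (h2 : g.1 < y.1)
    (hz : A (y.1 - 1, y.2) Color.green (n + 1)) : False :=
  core_down hG.swap hN.swap h.swap (by simp only [dist1] at hd ⊢; omega) h2 hz

theorem core_right (hG : Growth seed A) (hN : NoCoin seed) {g y : Site} {n : ℕ}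
    (h : Chain A g y n) (hd : dist1 y g = n) (h2 : y.1 < g.1)
    (hz : A (y.1 + 1, y.2) Color.green (n + 1)) : False :=
  core_up hG.swap hN.swap h.swap (by simp only [dist1] at hd ⊢; omega) h2 hz

theorem chain_geodesic (hG : Growth seed A) (hN : NoCoin seed) {g z : Site} {n : ℕ}
    (h : Chain A g z n) : dist1 z g = n := by
  induction h with
  | base h => simp [dist1]
  | step h1 h2 h3 ih =>
    rename_i y z n
    simp only [Adj] at h2
    rcases h2 with h2 | h2 | h2 | h2
    · have hz : z = (y.1 - 1, y.2) := by subst h2; ext <;> simp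
      by_cases hc : g.1 < y.1
      · exact (core_left hG hN h1 ih hc (hz ▸ h3)).elim
      · rw [hz]; simp only [dist1] at ih ⊢; omega
    · have hz : z = (y.1 + 1, y.2) := by subst h2; ext <;> simp
      by_cases hc : y.1 < g.1
      · exact (core_right hG hN h1 ih hc (hz ▸ h3)).elim
      · rw [hz]; simp only [dist1] at ih ⊢; omega
    · have hz : z = (y.1, y.2 - 1) := by subst h2; ext <;> simp
      by_cases hc : g.2 < y.2
      · exact (core_down hG hN h1 ih hc (hz ▸ h3)).elim
      · rw [hz]; simp only [dist1] at ih ⊢; omega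
    · have hz : z = (y.1, y.2 + 1) := by subst h2; ext <;> simp
      by_cases hc : y.2 < g.2
      · exact (core_up hG hN h1 ih hc (hz ▸ h3)).elim
      · rw [hz]; simp only [dist1] at ih ⊢; omega

theorem chain_right_aux (hG : Growth seed A) (hN : NoCoin seed) {g z : Site} {n : ℕ}
    (h : Chain A g z n) (hz : z.1 < g.1) (hz2 : z.2 ≤ g.2) :
    (∃ m, A (z.1 + 1, z.2) Color.red m) ∨ ∃ m, n = m + 1 ∧ Chain A g (z.1 + 1, z.2) m := by
  obtain ⟨k, j, hn, hgk, hch, hl⟩ := last_left h (chain_geodesic hG hN h) hz hz2
  have hchd := chain_geodesic hG hN hch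
  have hgs := (hG.init g Color.green).mp h.source
  simp only [dist1] at hchd
  -- the left column, indexed from the top
  have hv : ∀ l : ℕ, l ≤ k → A (z.1, z.2 + k - l) Color.green (j + 1 + l) := by
    intro l hlk
    have h1 := hl (k - l) (by omega)
    have h2 : z.2 + ((k - l : ℕ) : ℤ) = z.2 + k - l := by push_cast [Nat.cast_sub hlk]; ring
    rw [h2] at h1
    have h3 : n - (k - l) = j + 1 + l := by omega
    rw [h3] at h1
    exact h1
  by_cases hred : ∃ m, A (z.1 + 1, z.2) Color.red m
  · exact Or.inl hred
  right
  have hmain : ∀ l : ℕ, l ≤ k → Chain A g (z.1 + 1, z.2 + k - l) (j + l) := by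
    intro l
    induction l with
    | zero => intro _; simpa using hch
    | succ l ih =>
      intro hlk
      have hc := ih (by omega)
      have hcg := hc.green
      have hadj : Adj Color.green (z.1 + 1, z.2 + k - l) (z.1 + 1, z.2 + k - (l + 1 : ℕ)) :=
        adj_v (by decide) (by push_cast; omega) rfl
      obtain ⟨c', n', hn', hA'⟩ := hG.spread hcg hadj
      have hvl := hv (l + 1) hlk
      cases c' with
      | green =>
        obtain ⟨c'', m', hm', hA''⟩ := hG.spread hA' (z := (z.1, z.2 + k - (l + 1 : ℕ)))
          (adj_h (by decide) (by omega) rfl)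
        have htime := hG.time_eq hA'' hvl
        have hn'' : n' = j + l + 1 := by omega
        subst hn''
        exact Chain.step hc hadj hA'
      | blue =>
        exfalso
        obtain ⟨c'', m', hm', hA''⟩ := hG.spread hA' (z := (z.1, z.2 + k - (l + 1 : ℕ)))
          (adj_h (by decide) (by omega) rfl)
        have htime := hG.time_eq hA'' hvl
        obtain ⟨b, hb, hbn, hbl⟩ := blue_line hG hA'
        simp only at hb hbn hbl
        have hb1 : z.1 + 1 ≤ b := by
          by_contra hcon
          have h5 := hbl z.1 (by omega)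
          have := hG.color_eq h5 hvl
          cases this
        have := hN g (b, z.2 + k - (l + 1 : ℕ)) Color.blue hgs hb (by decide)
        push_cast at this
        omega
      | red =>
        exfalso
        obtain ⟨b, hb, hbn, hbl⟩ := red_line hG hA'
        simp only at hb hbn hbl
        have hb1 : b ≤ z.2 + k - (l + 1 : ℕ) := by
          by_contra hcon
          have h5 := hbl (z.2 + k - l) (by push_cast at hcon ⊢; omega)
          have := hG.color_eq h5 hcg
          cases this
        by_cases hb2 : b ≤ z.2
        · exact hred ⟨_, hbl z.2 (by push_cast; omega)⟩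
        · -- the red seed is in the column above `z + e1`
          obtain ⟨e, he⟩ : ∃ e : ℕ, b = z.2 + k - e := ⟨(z.2 + k - b).toNat, by omega⟩
          have he1 : l + 1 ≤ e := by omega
          have he2 : e < k := by omega
          have hdown : ∀ f : ℕ, e ≤ f → f ≤ k → ∃ m, m ≤ f - e ∧
              A (z.1 + 1, z.2 + k - f) Color.red m := by
            intro f hef
            induction f, hef using Nat.le_induction with
            | base =>
              intro _
              refine ⟨0, by omega, ?_⟩
              rw [hG.init, ← he]; exact hb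
            | succ f hef ihf =>
              intro hfk
              obtain ⟨m, hm, hmA⟩ := ihf (by omega)
              obtain ⟨c3, m3, hm3, hA3⟩ := hG.spread hmA
                (z := (z.1 + 1, z.2 + k - (f + 1 : ℕ)))
                (adj_v (by decide) (by push_cast; omega) rfl)
              have hvf := hv (f + 1) hfk
              have hred3 : c3 = Color.red := by
                by_contra hne
                have hadj3 : Adj c3 (z.1 + 1, z.2 + k - (f + 1 : ℕ))
                    (z.1, z.2 + k - (f + 1 : ℕ)) := adj_h hne (by omega) rfl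
                obtain ⟨c4, m4, hm4, hA4⟩ := hG.spread hA3 hadj3
                have htime := hG.time_eq hA4 hvf
                omega
              subst hred3
              exact ⟨m3, by omega, hA3⟩
          obtain ⟨m, _, hm⟩ := hdown k (by omega) le_rfl
          have : z.2 + (k : ℤ) - k = z.2 := by ring
          rw [this] at hm
          exact hred ⟨m, hm⟩
  have h1 := hmain k le_rfl
  have h2 : z.2 + (k : ℤ) - k = z.2 := by ring
  rw [h2] at h1
  exact ⟨j + k, by omega, h1⟩

theorem chain_right (hG : Growth seed A) (hN : NoCoin seed) {g z : Site} {n : ℕ}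
    (h : Chain A g z n) (hz : z.1 < g.1) :
    (∃ m, A (z.1 + 1, z.2) Color.red m) ∨ ∃ m, n = m + 1 ∧ Chain A g (z.1 + 1, z.2) m := by
  rcases le_total z.2 g.2 with h1 | h1
  · exact chain_right_aux hG hN h hz h1
  · rcases chain_right_aux hG.reflY hN.reflY h.reflY hz (by simpa using h1) with h2 | h2
    · left; simpa using h2
    · right
      obtain ⟨m, hm, hc⟩ := h2
      refine ⟨m, hm, ?_⟩
      have := hc.reflY
      simpa using this

theorem chain_left (hG : Growth seed A) (hN : NoCoin seed) {g z : Site} {n : ℕ}
    (h : Chain A g z n) (hz : g.1 < z.1) :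
    (∃ m, A (z.1 - 1, z.2) Color.red m) ∨ ∃ m, n = m + 1 ∧ Chain A g (z.1 - 1, z.2) m := by
  have he : -(-z.1 + 1) = z.1 - 1 := by ring
  rcases chain_right hG.reflX hN.reflX h.reflX (by simpa using hz) with h2 | h2
  · left; simpa [he] using h2
  · right
    obtain ⟨m, hm, hc⟩ := h2
    refine ⟨m, hm, ?_⟩
    have := hc.reflX
    simpa [he] using this

theorem chain_up (hG : Growth seed A) (hN : NoCoin seed) {g z : Site} {n : ℕ}
    (h : Chain A g z n) (hz : z.2 < g.2) :
    (∃ m, A (z.1, z.2 + 1) Color.blue m) ∨ ∃ m, n = m + 1 ∧ Chain A g (z.1, z.2 + 1) m := by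
  rcases chain_right hG.swap hN.swap h.swap hz with h2 | h2
  · left; exact h2
  · right
    obtain ⟨m, hm, hc⟩ := h2
    refine ⟨m, hm, ?_⟩
    have := hc.swap
    simpa [swapC_swapC] using this

theorem chain_down (hG : Growth seed A) (hN : NoCoin seed) {g z : Site} {n : ℕ}
    (h : Chain A g z n) (hz : g.2 < z.2) :
    (∃ m, A (z.1, z.2 - 1) Color.blue m) ∨ ∃ m, n = m + 1 ∧ Chain A g (z.1, z.2 - 1) m := by
  rcases chain_left hG.swap hN.swap h.swap hz with h2 | h2
  · left; exact h2
  · right
    obtain ⟨m, hm, hc⟩ := h2
    refine ⟨m, hm, ?_⟩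
    have := hc.swap
    simpa [swapC_swapC] using this

end Pool.Agent.Helper69.TC
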