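import Pool.Agent.Helper69.TC.Defs

/-!
Basic facts on the three-colour growth: the abstract growth relation, the fact that the process
satisfies it, finite speed, measurability.
-/

set_option autoImplicit false

open MeasureTheory

namespace Pool.Agent.Helper69.TC

/-- Abstract growth relation: `A z c n` means that the site `z` receives the colour `c` exactly at
time `n`. -/
structure Growth (seed : Site → Option Color) (A : Site → Color → ℕ → Prop) : Prop where
  uniq : ∀ {z : Site} {c c' : Color} {n n' : ℕ}, A z c n → A z c' n' → c = c' ∧ n = n'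
  init : ∀ (z : Site) (c : Color), A z c 0 ↔ seed z = some c
  pred : ∀ {z : Site} {c : Color} {n : ℕ}, A z c (n + 1) → ∃ y, Adj c y z ∧ A y c n
  spread : ∀ {y z : Site} {c : Color} {n : ℕ}, A y c n → Adj c y z →
    ∃ c' n', n' ≤ n + 1 ∧ A z c' n'

/-- The `l1` distance. -/
def dist1 (x y : Site) : ℕ := (x.1 - y.1).natAbs + (x.2 - y.2).natAbs

/-- In the process started from `s0`, the site `z` receives the colour `c` exactly at time `n`. -/
def Col (s0 : Site → Option Color) (r : Site × ℕ → Ranking) (z : Site) (c : Color) (n : ℕ) : Prop :=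
  run s0 r n z = some c ∧ ∀ m < n, run s0 r m z = none

theorem pick_eq_none_iff (r : Ranking) (S : Finset Color) : pick r S = none ↔ S = ∅ := by
  unfold pick
  split_ifs with h
  · simp only [false_iff]
    rintro rfl
    simp at h
  · simp only [true_iff]
    simpa using h

theorem pick_mem {r : Ranking} {S : Finset Color} {c : Color} (h : pick r S = some c) : c ∈ S := by
  unfold pick at h
  split_ifs at h with h'
  · have h1 := Finset.min'_mem (S.image r) h'
    rw [Finset.mem_image] at h1
    obtain ⟨a, ha, hb⟩ := h1
    rw [← hb] at h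
    simp only [Equiv.symm_apply_apply, Option.some.injEq] at h
    exact h ▸ ha

theorem step_of_some {r : Site → Ranking} {s : Site → Option Color} {x : Site} {c : Color}
    (h : s x = some c) : step r s x = some c := by
  unfold step; rw [h]

theorem step_of_none {r : Site → Ranking} {s : Site → Option Color} {x : Site}
    (h : s x = none) : step r s x = pick (r x) (cand s x) := by
  unfold step; rw [h]

theorem mem_cand {s : Site → Option Color} {x : Site} {c : Color} :
    c ∈ cand s x ↔ ∃ y, Adj c y x ∧ s y = some c := by
  classical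
  simp [cand]

theorem run_succ (s0 : Site → Option Color) (r : Site × ℕ → Ranking) (n : ℕ) :
    run s0 r (n + 1) = step (fun x => r (x, n)) (run s0 r n) := rfl

theorem run_mono {s0 : Site → Option Color} {r : Site × ℕ → Ranking} {z : Site} {c : Color}
    {n m : ℕ} (hnm : n ≤ m) (h : run s0 r n z = some c) : run s0 r m z = some c := by
  induction m, hnm using Nat.le_induction with
  | base => exact h
  | succ m _ ih => rw [run_succ]; exact step_of_some ih

theorem run_eq_some_iff {s0 : Site → Option Color} {r : Site × ℕ → Ranking} {z : Site} {c : Color}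
    {n : ℕ} : run s0 r n z = some c ↔ ∃ m ≤ n, Col s0 r z c m := by
  constructor
  · intro h
    classical
    have hex : ∃ m, run s0 r m z ≠ none := ⟨n, by rw [h]; simp⟩
    have hf := Nat.find_spec hex
    have hle : Nat.find hex ≤ n := Nat.find_min' hex (by rw [h]; simp)
    obtain ⟨c', hc'⟩ := Option.ne_none_iff_exists'.mp hf
    have h2 := run_mono hle hc'
    rw [h] at h2
    refine ⟨Nat.find hex, hle, ?_, ?_⟩
    · rw [hc', h2]
    · intro m hm
      have := Nat.find_min hex hm
      simpa using this
  · rintro ⟨m, hm, h, _⟩
    exact run_mono hm h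

theorem growth_run (s0 : Site → Option Color) (r : Site × ℕ → Ranking) :
    Growth s0 (Col s0 r) where
  uniq := by
    rintro z c c' n n' ⟨h1, h2⟩ ⟨h3, h4⟩
    have hn : n = n' := by
      rcases lt_trichotomy n n' with h | h | h
      · rw [h4 n h] at h1; simp at h1
      · exact h
      · rw [h2 n' h] at h3; simp at h3
    subst hn
    rw [h1] at h3
    exact ⟨by simpa using h3, rfl⟩
  init := by
    intro z c
    constructor
    · rintro ⟨h, _⟩; exact h
    · intro h; exact ⟨h, fun m hm => absurd hm (by omega)⟩
  pred := by
    rintro z c n ⟨h1, h2⟩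
    have h0 := h2 n (by omega)
    rw [run_succ, step_of_none h0] at h1
    have h3 := pick_mem h1
    rw [mem_cand] at h3
    obtain ⟨y, hy, hyc⟩ := h3
    refine ⟨y, hy, hyc, ?_⟩
    intro m hm
    by_contra hne
    obtain ⟨c', hc'⟩ := Option.ne_none_iff_exists'.mp hne
    have h4 := run_mono (m := n) (by omega) hc'
    rw [hyc] at h4
    have h5 : c = c' := by simpa using h4
    have h6 : c ∈ cand (run s0 r m) z := by
      rw [mem_cand]; exact ⟨y, hy, by rw [hc', h5]⟩
    have h7 := h2 (m + 1) (by omega)
    rw [run_succ, step_of_none (h2 m (by omega)), pick_eq_none_iff] at h7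
    rw [h7] at h6
    simp at h6
  spread := by
    rintro y z c n ⟨h1, _⟩ hadj
    by_contra hcon
    push Not at hcon
    have hz : run s0 r (n + 1) z = none := by
      by_contra hne
      obtain ⟨c', hc'⟩ := Option.ne_none_iff_exists'.mp hne
      obtain ⟨m, hm, hcol⟩ := run_eq_some_iff.mp hc'
      exact hcon c' m hm hcol
    have hz0 : run s0 r n z = none := by
      by_contra hne
      obtain ⟨c', hc'⟩ := Option.ne_none_iff_exists'.mp hne
      rw [run_mono (by omega : n ≤ n + 1) hc'] at hz
      simp at hz
    rw [run_succ, step_of_none hz0, pick_eq_none_iff] at hz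
    have h6 : c ∈ cand (run s0 r n) z := by
      rw [mem_cand]; exact ⟨y, hadj, h1⟩
    rw [hz] at h6
    simp at h6

theorem eventuallyGreen_iff (ω : (Site → Option Color) × (Site × ℕ → Ranking)) :
    EventuallyGreen ω ↔ ∃ n, Col ω.1 ω.2 (0, 0) Color.green n := by
  constructor
  · rintro ⟨t, ht⟩
    obtain ⟨m, _, hm⟩ := run_eq_some_iff.mp ht
    exact ⟨m, hm⟩
  · rintro ⟨n, hn⟩
    exact ⟨n, hn.1⟩

theorem adj_dist {c : Color} {y x : Site} (h : Adj c y x) : dist1 y x = 1 := by
  cases c <;> simp only [Adj] at h <;> unfold dist1 <;> (rcases h with h | h) <;>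
    first
    | (subst h; simp)
    | (rcases h with h | h | h <;> subst h <;> simp)

theorem dist1_triangle (x y z : Site) : dist1 x z ≤ dist1 x y + dist1 y z := by
  unfold dist1; omega

theorem dist1_comm (x y : Site) : dist1 x y = dist1 y x := by
  unfold dist1; omega

/-- Finite speed of propagation. -/
theorem run_congr {s0 s0' : Site → Option Color} {r r' : Site × ℕ → Ranking} (n : ℕ) :
    ∀ z : Site, (∀ y, dist1 y z ≤ n → s0 y = s0' y) →
      (∀ y t, t < n → dist1 y z + t < n → r (y, t) = r' (y, t)) →
      run s0 r n z = run s0' r' n z := by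
  induction n with
  | zero =>
    intro z h _
    exact h z (by unfold dist1; simp)
  | succ n ih =>
    intro z h hr
    have hself : run s0 r n z = run s0' r' n z :=
      ih z (fun y hy => h y (by omega)) (fun y t ht hy => hr y t (by omega) (by omega))
    have hnb : ∀ c y, Adj c y z → run s0 r n y = run s0' r' n y := by
      intro c y hy
      have hd := adj_dist hy
      refine ih y (fun w hw => h w ?_) (fun w t ht hw => hr w t (by omega) ?_)
      · have := dist1_triangle w y z; omega
      · have := dist1_triangle w y z; omega
    have hc : cand (run s0 r n) z = cand (run s0' r' n) z := by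
      ext c
      rw [mem_cand, mem_cand]
      constructor
      · rintro ⟨y, hy, hyc⟩; exact ⟨y, hy, by rw [← hnb c y hy]; exact hyc⟩
      · rintro ⟨y, hy, hyc⟩; exact ⟨y, hy, by rw [hnb c y hy]; exact hyc⟩
    rw [run_succ, run_succ]
    cases hz : run s0 r n z with
    | some c =>
      rw [step_of_some hz, step_of_some (hself ▸ hz)]
    | none =>
      rw [step_of_none hz, step_of_none (hself ▸ hz), hc]
      congr 1
      exact hr z n (by omega) (by unfold dist1; simp)

/-- Auxiliary colouring determined by the states of the four neighbours of `z`. -/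
def nbState (z : Site) (o : Option Color × Option Color × Option Color × Option Color) :
    Site → Option Color := fun y =>
  if y = (z.1 + 1, z.2) then o.1
  else if y = (z.1 - 1, z.2) then o.2.1
  else if y = (z.1, z.2 + 1) then o.2.2.1
  else if y = (z.1, z.2 - 1) then o.2.2.2
  else none

theorem cand_nbState (s : Site → Option Color) (z : Site) :
    cand (nbState z (s (z.1 + 1, z.2), s (z.1 - 1, z.2), s (z.1, z.2 + 1), s (z.1, z.2 - 1))) z
      = cand s z := by
  have key : ∀ c y, Adj c y z →
      nbState z (s (z.1 + 1, z.2), s (z.1 - 1, z.2), s (z.1, z.2 + 1), s (z.1, z.2 - 1)) y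
        = s y := by
    intro c y hy
    have h4 : y = (z.1 + 1, z.2) ∨ y = (z.1 - 1, z.2) ∨ y = (z.1, z.2 + 1) ∨
        y = (z.1, z.2 - 1) := by
      cases c <;> simp only [Adj] at hy <;> tauto
    unfold nbState
    rcases h4 with h | h | h | h
    · rw [if_pos h, h]
    · rw [if_neg, if_pos h, h]
      rw [h]; intro h'; simp only [Prod.mk.injEq] at h'; omega
    · rw [if_neg, if_neg, if_pos h, h]
      · rw [h]; intro h'; simp only [Prod.mk.injEq] at h'; omega
      · rw [h]; intro h'; simp only [Prod.mk.injEq] at h'; omega
    · rw [if_neg, if_neg, if_neg, if_pos h, h]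
      · rw [h]; intro h'; simp only [Prod.mk.injEq] at h'; omega
      · rw [h]; intro h'; simp only [Prod.mk.injEq] at h'; omega
      · rw [h]; intro h'; simp only [Prod.mk.injEq] at h'; omega
  ext c
  rw [mem_cand, mem_cand]
  constructor
  · rintro ⟨y, hy, hyc⟩; exact ⟨y, hy, by rw [← key c y hy]; exact hyc⟩
  · rintro ⟨y, hy, hyc⟩; exact ⟨y, hy, by rw [key c y hy]; exact hyc⟩

instance : DiscreteMeasurableSpace Color := ⟨fun _ => trivial⟩
instance : DiscreteMeasurableSpace (Option Color) := ⟨fun _ => trivial⟩
instance : DiscreteMeasurableSpace Ranking := ⟨fun _ => trivial⟩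

theorem measurable_run (n : ℕ) : ∀ z : Site,
    Measurable fun ω : (Site → Option Color) × (Site × ℕ → Ranking) => run ω.1 ω.2 n z := by
  induction n with
  | zero =>
    intro z
    exact (measurable_pi_apply z).comp measurable_fst
  | succ n ih =>
    intro z
    let F : (Option Color × (Option Color × Option Color × Option Color × Option Color)) × Ranking →
        Option Color := fun q => match q.1.1 with
      | some c => some c
      | none => pick q.2 (cand (nbState z q.1.2) z)
    have hF : Measurable F := Measurable.of_discrete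
    have h2 : (fun ω : (Site → Option Color) × (Site × ℕ → Ranking) => run ω.1 ω.2 (n + 1) z) =
        fun ω => F ((run ω.1 ω.2 n z, (run ω.1 ω.2 n (z.1 + 1, z.2), run ω.1 ω.2 n (z.1 - 1, z.2),
          run ω.1 ω.2 n (z.1, z.2 + 1), run ω.1 ω.2 n (z.1, z.2 - 1))), ω.2 (z, n)) := by
      funext ω
      simp only [F]
      rw [run_succ]
      cases hz : run ω.1 ω.2 n z with
      | some c => rw [step_of_some hz]
      | none => rw [step_of_none hz, cand_nbState]
    rw [h2]
    exact hF.comp (((ih z).prodMk ((ih _).prodMk ((ih _).prodMk ((ih _).prodMk (ih _))))).prodMk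
      ((measurable_pi_apply (z, n)).comp measurable_snd))

theorem measurableSet_eventuallyGreen : MeasurableSet {ω | EventuallyGreen ω} := by
  have : {ω : (Site → Option Color) × (Site × ℕ → Ranking) | EventuallyGreen ω} =
      ⋃ n : ℕ, (fun ω => run ω.1 ω.2 n (0, 0)) ⁻¹' {some Color.green} := by
    ext ω; simp [EventuallyGreen]
  rw [this]
  exact MeasurableSet.iUnion fun n => measurable_run n (0, 0) (MeasurableSet.of_discrete)

end Pool.Agent.Helper69.TC
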