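import Pool.Agent.Helper69.TC.Geodesic

/-!
Comparison of two configurations of the same combinatorial type.
-/

set_option autoImplicit false

namespace Pool.Agent.Helper69.TC

variable {ι : Type} {pos pos' : ι → Site} {clr : ι → Color}
  {seed : Site → Option Color} {A A' : Site → Color → ℕ → Prop}

/-! ### Seeds -/

theorem Spread.inj (h : Spread pos) : Function.Injective pos := by
  intro i j hij
  by_contra hne
  have := h.gapX (some i) (some j) (by simpa using hne)
  simp only [lineX, hij] at this
  omega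

theorem exists_of_seedOf {z : Site} {c : Color} (h : seedOf pos clr z = some c) :
    ∃ i, pos i = z ∧ clr i = c := by
  unfold seedOf at h
  split_ifs at h with h'
  exact ⟨h'.choose, h'.choose_spec, by simpa using h⟩

theorem seedOf_pos (h : Function.Injective pos) (i : ι) :
    seedOf pos clr (pos i) = some (clr i) := by
  unfold seedOf
  have h' : ∃ j, pos j = pos i := ⟨i, rfl⟩
  rw [dif_pos h']
  rw [h h'.choose_spec]

theorem seedOf_eq_some (h : Function.Injective pos) {z : Site} {c : Color} :
    seedOf pos clr z = some c ↔ ∃ i, pos i = z ∧ clr i = c := by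
  constructor
  · exact exists_of_seedOf
  · rintro ⟨i, rfl, rfl⟩; exact seedOf_pos h i

theorem Spread.noCoin (h : Spread pos) : NoCoin (seedOf pos clr) := by
  intro g w c hg hw hc
  obtain ⟨i, hi, hi'⟩ := exists_of_seedOf hg
  obtain ⟨j, hj, hj'⟩ := exists_of_seedOf hw
  have hij : i ≠ j := by
    rintro rfl
    exact hc (hj'.symm.trans hi')
  have := h.sep (some i) (some j) i j hij
  simp only [crossD, lineX, lineY, dist1] at this
  rw [hi, hj] at this
  omega

/-! ### Good sites: sites reached from a given seed, with the structure of the path -/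

/-- The site `z` is reached from the seed `g` of colour `c`. -/
def Good (A : Site → Color → ℕ → Prop) (g : Site) (c : Color) (z : Site) : Prop :=
  match c with
  | Color.green => Chain A g z (dist1 z g)
  | Color.blue => z.2 = g.2 ∧ ∀ x : ℤ, (g.1 ≤ x ∧ x ≤ z.1 ∨ z.1 ≤ x ∧ x ≤ g.1) →
      A (x, z.2) Color.blue (x - g.1).natAbs
  | Color.red => z.1 = g.1 ∧ ∀ y : ℤ, (g.2 ≤ y ∧ y ≤ z.2 ∨ z.2 ≤ y ∧ y ≤ g.2) →
      A (z.1, y) Color.red (y - g.2).natAbs

theorem Good.col {g z : Site} {c : Color} (h : Good A g c z) : A z c (dist1 z g) := by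
  cases c
  · obtain ⟨h1, h2⟩ := h
    have h3 := h2 z.1 (by omega)
    have h4 : dist1 z g = (z.1 - g.1).natAbs := by simp [dist1, h1]
    rw [h4]; exact h3
  · obtain ⟨h1, h2⟩ := h
    have h3 := h2 z.2 (by omega)
    have h4 : dist1 z g = (z.2 - g.2).natAbs := by simp [dist1, h1]
    rw [h4]; exact h3
  · exact Chain.green h

theorem exists_good (h : Spread pos) (hA : Growth (seedOf pos clr) A) {z : Site} {c : Color}
    {n : ℕ} (hz : A z c n) :
    ∃ s : ι, clr s = c ∧ dist1 z (pos s) = n ∧ Good A (pos s) c z := by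
  cases c
  · obtain ⟨b, hb, hn, hl⟩ := blue_line hA hz
    obtain ⟨s, hs, hs'⟩ := exists_of_seedOf hb
    refine ⟨s, hs', ?_, ?_⟩
    · rw [hs]; simp only [dist1]; omega
    · rw [hs]; exact ⟨rfl, hl⟩
  · obtain ⟨b, hb, hn, hl⟩ := red_line hA hz
    obtain ⟨s, hs, hs'⟩ := exists_of_seedOf hb
    refine ⟨s, hs', ?_, ?_⟩
    · rw [hs]; simp only [dist1]; omega
    · rw [hs]; exact ⟨rfl, hl⟩
  · obtain ⟨g, hg⟩ := exists_chain hA hz
    have hd := chain_geodesic hA h.noCoin hg
    obtain ⟨s, hs, hs'⟩ := exists_of_seedOf ((hA.init g Color.green).mp hg.source)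
    refine ⟨s, hs', by rw [hs]; exact hd, ?_⟩
    rw [hs]
    show Chain A g z (dist1 z g)
    rw [hd]; exact hg

theorem good_pred (hG : Growth seed A) (hN : NoCoin seed) {g z : Site} {c : Color}
    (h : Good A g c z) (hz : dist1 z g ≠ 0) :
    ∃ u, Adj c u z ∧ Good A g c u ∧ dist1 u g + 1 = dist1 z g := by
  cases c
  · obtain ⟨h1, h2⟩ := h
    have hne : z.1 ≠ g.1 := by
      intro h3; apply hz; simp [dist1, h1, h3]
    rcases lt_or_gt_of_ne hne with hlt | hgt
    · refine ⟨(z.1 + 1, z.2), Or.inl rfl, ⟨h1, ?_⟩, by simp only [dist1]; omega⟩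
      intro x hx
      simp only at hx
      exact h2 x (by omega)
    · refine ⟨(z.1 - 1, z.2), Or.inr rfl, ⟨h1, ?_⟩, by simp only [dist1]; omega⟩
      intro x hx
      simp only at hx
      exact h2 x (by omega)
  · obtain ⟨h1, h2⟩ := h
    have hne : z.2 ≠ g.2 := by
      intro h3; apply hz; simp [dist1, h1, h3]
    rcases lt_or_gt_of_ne hne with hlt | hgt
    · refine ⟨(z.1, z.2 + 1), Or.inl rfl, ⟨h1, ?_⟩, by simp only [dist1]; omega⟩
      intro x hx
      simp only at hx
      exact h2 x (by omega)
    · refine ⟨(z.1, z.2 - 1), Or.inr rfl, ⟨h1, ?_⟩, by simp only [dist1]; omega⟩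
      intro x hx
      simp only at hx
      exact h2 x (by omega)
  · have h1 : Chain A g z (dist1 z g) := h
    generalize hn : dist1 z g = n at h1 hz
    cases h1 with
    | base _ => exact absurd rfl hz
    | step hc hadj hlast =>
      rename_i y n
      have hd := chain_geodesic hG hN hc
      refine ⟨y, hadj, ?_, by omega⟩
      show Chain A g y (dist1 y g)
      rw [hd]; exact hc

theorem good_right (hG : Growth seed A) (hN : NoCoin seed) {g z : Site} {c : Color}
    (hc : c ≠ Color.red) (h : Good A g c z) (hlt : z.1 < g.1)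
    (hr : ∀ m, ¬ A (z.1 + 1, z.2) Color.red m) : Good A g c (z.1 + 1, z.2) := by
  cases c
  · obtain ⟨h1, h2⟩ := h
    refine ⟨h1, ?_⟩
    intro x hx
    simp only at hx
    exact h2 x (by omega)
  · exact absurd rfl hc
  · rcases chain_right hG hN (show Chain A g z (dist1 z g) from h) hlt with h1 | h1
    · obtain ⟨m, hm⟩ := h1
      exact absurd hm (hr m)
    · obtain ⟨m, _, hm'⟩ := h1
      have hd := chain_geodesic hG hN hm'
      show Chain A g (z.1 + 1, z.2) (dist1 (z.1 + 1, z.2) g)
      rw [hd]; exact hm'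

/-! ### Blocks -/

/-- Site near the crossing of the lines `a`, `b`. -/
def bs (pos : ι → Site) (a b : Option ι) (d : ℤ × ℤ) : Site :=
  (lineX pos a + d.1, lineY pos b + d.2)

/-- Small shifts. -/
def Small (d : ℤ × ℤ) : Prop := -1 ≤ d.1 ∧ d.1 ≤ 1 ∧ -1 ≤ d.2 ∧ d.2 ≤ 1

theorem bs_dist (pos : ι → Site) (a b : Option ι) {d : ℤ × ℤ} (hd : Small d) (s : ι) :
    dist1 (bs pos a b d) (pos s) ≤ crossD pos a b s + 2 ∧
      crossD pos a b s ≤ dist1 (bs pos a b d) (pos s) + 2 := by
  obtain ⟨h2, h3, h4, h5⟩ := hd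
  simp only [crossD, dist1, bs]
  omega

theorem dist_ne (h : Spread pos) {a b : Option ι} {d : ℤ × ℤ} (hd : Small d) {s t : ι}
    (hst : s ≠ t) : dist1 (bs pos a b d) (pos s) ≠ dist1 (bs pos a b d) (pos t) := by
  have h1 := h.sep a b s t hst
  have h2 := bs_dist pos a b hd s
  have h3 := bs_dist pos a b hd t
  omega

theorem dist_cmp (h : Similar pos pos') {a b : Option ι} {d : ℤ × ℤ} (hd : Small d) {s t : ι}
    (hst : s ≠ t) (hle : dist1 (bs pos a b d) (pos s) ≤ dist1 (bs pos a b d) (pos t)) :
    dist1 (bs pos' a b d) (pos' s) < dist1 (bs pos' a b d) (pos' t) := by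
  have h1 := h.spread.sep a b s t hst
  have h1' := h.spread'.sep a b s t hst
  have h6 := h.cmp a b s t
  have h2 := bs_dist pos a b hd s
  have h3 := bs_dist pos a b hd t
  have h4 := bs_dist pos' a b hd s
  have h5 := bs_dist pos' a b hd t
  omega

theorem Similar.symm (h : Similar pos pos') : Similar pos' pos where
  spread := h.spread'
  spread' := h.spread
  ordX := fun a b => (h.ordX a b).symm
  ordY := fun a b => (h.ordY a b).symm
  cmp := fun a b s t => (h.cmp a b s t).symm

theorem lt_transfer (h : Similar pos pos') {a : Option ι} {e : ℤ} (he : -1 ≤ e ∧ e ≤ 1) {s : ι}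
    (hlt : lineX pos a + e < (pos s).1) : lineX pos' a + e < (pos' s).1 := by
  by_cases has : a = some s
  · subst has
    simp only [lineX] at hlt ⊢
    omega
  · have h1 := h.spread.gapX a (some s) has
    have h2 := h.spread'.gapX a (some s) has
    have h3 := h.ordX a (some s)
    have h4 : lineX pos (some s) = (pos s).1 := rfl
    have h5 : lineX pos' (some s) = (pos' s).1 := rfl
    omega

/-- Horizontal transport to the right. -/
theorem HR [Fintype ι] (hsim : Similar pos pos') (hA : Growth (seedOf pos clr) A)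
    (hA' : Growth (seedOf pos' clr) A') {a b : Option ι} {d : ℤ × ℤ} (hd : Small d) {s : ι}
    (hc : clr s ≠ Color.red) (hlt : lineX pos a + d.1 < (pos s).1)
    (hu : Good A (pos s) (clr s) (lineX pos a + d.1 + 1, lineY pos b + d.2))
    (H : ∀ (a2 b2 : Option ι) (d2 : ℤ × ℤ), Small d2 →
      dist1 (bs pos a2 b2 d2) (pos s) < dist1 (bs pos a b d) (pos s) →
      dist1 (bs pos' a2 b2 d2) (pos' s) < dist1 (bs pos' a b d) (pos' s) →
      A (bs pos a2 b2 d2) (clr s) (dist1 (bs pos a2 b2 d2) (pos s)) →
      A' (bs pos' a2 b2 d2) (clr s) (dist1 (bs pos' a2 b2 d2) (pos' s))) :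
    ∃ c' n', n' ≤ dist1 (bs pos' a b d) (pos' s) ∧ A' (bs pos' a b d) c' n' := by
  classical
  have hd' := hd
  obtain ⟨hd1, hd2, hd3, hd4⟩ := hd
  have hlt' := lt_transfer hsim ⟨hd1, hd2⟩ hlt
  by_cases hcase : d.1 ≤ 0
  · have hcol := hu.col
    have e1 : bs pos a b (d.1 + 1, d.2) = (lineX pos a + d.1 + 1, lineY pos b + d.2) := by
      simp only [bs, Prod.mk.injEq, and_true]; ring
    have e2 : bs pos' a b (d.1 + 1, d.2) = (lineX pos' a + d.1 + 1, lineY pos' b + d.2) := by
      simp only [bs, Prod.mk.injEq, and_true]; ring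
    have h1 := H a b (d.1 + 1, d.2) ⟨by simp only; omega, by simp only; omega, hd3, hd4⟩
      (by rw [e1]; simp only [bs, dist1]; omega) (by rw [e2]; simp only [bs, dist1]; omega)
      (by rw [e1]; exact hcol)
    rw [e2] at h1
    obtain ⟨c', n', hn', h2⟩ := hA'.spread h1 (z := bs pos' a b d)
      (adj_h hc (by omega) rfl)
    refine ⟨c', n', ?_, h2⟩
    refine le_trans hn' ?_
    simp only [bs, dist1]
    omega
  · have hd1' : d.1 = 1 := by omega
    -- the next line
    have hs0 : lineX pos (some s) = (pos s).1 := rfl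
    have hs0' : lineX pos' (some s) = (pos' s).1 := rfl
    obtain ⟨a2, ha2, hmin⟩ := Finset.exists_min_image
      (Finset.univ.filter fun e : Option ι => lineX pos a < lineX pos e) (lineX pos)
      ⟨some s, by simp only [Finset.mem_filter, Finset.mem_univ, true_and]; omega⟩
    simp only [Finset.mem_filter, Finset.mem_univ, true_and] at ha2 hmin
    have hne : a ≠ a2 := by rintro rfl; omega
    have hgap := hsim.spread.gapX a a2 hne
    have hgap' := hsim.spread'.gapX a a2 hne
    have hord := hsim.ordX a a2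
    have hs1 : lineX pos a2 ≤ (pos s).1 := hmin (some s) (by omega)
    have hs1' : lineX pos' a2 ≤ (pos' s).1 := by
      by_contra hcon
      have := (hsim.ordX (some s) a2).mpr (by omega)
      omega
    -- no red site between the lines
    have hnored : ∀ x y : ℤ, lineX pos a < x → x < lineX pos a2 → ∀ m, ¬ A (x, y) Color.red m := by
      intro x y hx1 hx2 m hm
      obtain ⟨r, hr, _⟩ := red_line hA hm
      obtain ⟨i, hi, _⟩ := exists_of_seedOf hr
      have h3 : lineX pos (some i) = x := by simp only [lineX, hi]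
      have := hmin (some i) (by omega)
      omega
    have hnored' : ∀ x y : ℤ, lineX pos' a < x → x < lineX pos' a2 →
        ∀ m, ¬ A' (x, y) Color.red m := by
      intro x y hx1 hx2 m hm
      obtain ⟨r, hr, _⟩ := red_line hA' hm
      obtain ⟨i, hi, _⟩ := exists_of_seedOf hr
      have h3 : lineX pos' (some i) = x := by simp only [lineX, hi]
      have h4 := (hsim.ordX a (some i)).mpr (by omega)
      have h5 := (hsim.ordX (some i) a2).mpr (by omega)
      have := hmin (some i) (by omega)
      omega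
    -- backwards transport in the first configuration
    have hback : ∀ j : ℕ, lineX pos a + 2 + j ≤ lineX pos a2 - 1 →
        Good A (pos s) (clr s) (lineX pos a + 2 + j, lineY pos b + d.2) := by
      intro j
      induction j with
      | zero =>
        intro _
        have : lineX pos a + 2 + ((0 : ℕ) : ℤ) = lineX pos a + d.1 + 1 := by
          rw [hd1']; push_cast; ring
        rw [this]; exact hu
      | succ j ih =>
        intro hj
        push_cast at hj
        have h1 := ih (by omega)
        have h2 := good_right hA hsim.spread.noCoin hc h1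
          (show lineX pos a + 2 + (j : ℤ) < (pos s).1 by omega)
          (hnored _ _ (show lineX pos a < lineX pos a + 2 + (j : ℤ) + 1 by omega)
            (show lineX pos a + 2 + (j : ℤ) + 1 < lineX pos a2 by omega))
        have h3 : lineX pos a + 2 + ((j + 1 : ℕ) : ℤ) = lineX pos a + 2 + j + 1 := by
          push_cast; ring
        rw [h3]; exact h2
    have hv : Good A (pos s) (clr s) (lineX pos a2 - 1, lineY pos b + d.2) := by
      have h1 := hback (lineX pos a2 - 1 - (lineX pos a + 2)).toNat (by omega)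
      have h2 : lineX pos a + 2 + (((lineX pos a2 - 1 - (lineX pos a + 2)).toNat : ℕ) : ℤ)
          = lineX pos a2 - 1 := by omega
      rw [h2] at h1; exact h1
    have e1 : bs pos a2 b (-1, d.2) = (lineX pos a2 - 1, lineY pos b + d.2) := by
      simp only [bs, Prod.mk.injEq, and_true]; ring
    have e2 : bs pos' a2 b (-1, d.2) = (lineX pos' a2 - 1, lineY pos' b + d.2) := by
      simp only [bs, Prod.mk.injEq, and_true]; ring
    have h1 := H a2 b (-1, d.2) ⟨by simp only; omega, by simp only; omega, hd3, hd4⟩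
      (by rw [e1]; simp only [bs, dist1]; omega) (by rw [e2]; simp only [bs, dist1]; omega)
      (by rw [e1]; exact hv.col)
    rw [e2] at h1
    -- forward transport in the second configuration
    have hforw : ∀ j : ℕ, lineX pos' a + 1 ≤ lineX pos' a2 - 1 - j →
        ∃ c' n', c' ≠ Color.red ∧
          n' ≤ dist1 (lineX pos' a2 - 1, lineY pos' b + d.2) (pos' s) + j ∧
          A' (lineX pos' a2 - 1 - j, lineY pos' b + d.2) c' n' := by
      intro j
      induction j with
      | zero => intro _; exact ⟨clr s, _, hc, le_rfl, by simpa using h1⟩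
      | succ j ih =>
        intro hj
        push_cast at hj
        obtain ⟨c', n', hc', hn', h2⟩ := ih (by omega)
        obtain ⟨c2, n2, hn2, h3⟩ := hA'.spread h2
          (z := (lineX pos' a2 - 1 - (j + 1 : ℕ), lineY pos' b + d.2))
          (adj_h hc' (by push_cast; omega) rfl)
        refine ⟨c2, n2, ?_, by omega, h3⟩
        rintro rfl
        exact hnored' _ _ (by push_cast; omega) (by push_cast; omega) _ h3
    obtain ⟨c', n', _, hn', h2⟩ := hforw (lineX pos' a2 - 1 - (lineX pos' a + 1)).toNat (by omega)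
    have h3 : lineX pos' a2 - 1 - (((lineX pos' a2 - 1 - (lineX pos' a + 1)).toNat : ℕ) : ℤ)
        = lineX pos' a + d.1 := by omega
    rw [h3] at h2
    refine ⟨c', n', ?_, h2⟩
    refine le_trans hn' ?_
    simp only [bs, dist1]
    omega

/-! ### Symmetric versions -/

/-- Reflected sites. -/
def rf (z : Site) : Site := (-z.1, z.2)

/-- Swapped sites. -/
def sw (z : Site) : Site := (z.2, z.1)

theorem rf_rf (z : Site) : rf (rf z) = z := by simp [rf]

theorem sw_sw (z : Site) : sw (sw z) = z := rfl

theorem dist_rf (z w : Site) : dist1 (rf z) (rf w) = dist1 z w := by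
  simp only [dist1, rf]; omega

theorem dist_sw (z w : Site) : dist1 (sw z) (sw w) = dist1 z w := by
  simp only [dist1, sw]; omega

theorem lineX_rf (pos : ι → Site) (a : Option ι) :
    lineX (fun i => rf (pos i)) a = - lineX pos a := by
  cases a <;> simp [lineX, rf]

theorem lineY_rf (pos : ι → Site) (a : Option ι) :
    lineY (fun i => rf (pos i)) a = lineY pos a := by
  cases a <;> simp [lineY, rf]

theorem lineX_sw (pos : ι → Site) (a : Option ι) :
    lineX (fun i => sw (pos i)) a = lineY pos a := by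
  cases a <;> simp [lineX, lineY, sw]

theorem lineY_sw (pos : ι → Site) (a : Option ι) :
    lineY (fun i => sw (pos i)) a = lineX pos a := by
  cases a <;> simp [lineX, lineY, sw]

theorem bs_rf (pos : ι → Site) (a b : Option ι) (d : ℤ × ℤ) :
    bs (fun i => rf (pos i)) a b d = rf (bs pos a b (rf d)) := by
  unfold bs
  rw [lineX_rf, lineY_rf]
  simp only [rf, Prod.mk.injEq, and_true]
  ring

theorem bs_sw (pos : ι → Site) (a b : Option ι) (d : ℤ × ℤ) :
    bs (fun i => sw (pos i)) a b d = sw (bs pos b a (sw d)) := by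
  unfold bs
  rw [lineX_sw, lineY_sw]
  rfl

theorem crossD_rf (pos : ι → Site) (a b : Option ι) (s : ι) :
    crossD (fun i => rf (pos i)) a b s = crossD pos a b s := by
  unfold crossD
  rw [lineX_rf, lineY_rf]
  exact dist_rf (lineX pos a, lineY pos b) (pos s)

theorem crossD_sw (pos : ι → Site) (a b : Option ι) (s : ι) :
    crossD (fun i => sw (pos i)) a b s = crossD pos b a s := by
  unfold crossD
  rw [lineX_sw, lineY_sw]
  exact dist_sw (lineX pos b, lineY pos a) (pos s)

theorem Spread.rf (h : Spread pos) : Spread (fun i => rf (pos i)) where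
  gapX := by
    intro a b hab
    rw [lineX_rf, lineX_rf]
    have := h.gapX a b hab
    omega
  gapY := by
    intro a b hab
    rw [lineY_rf, lineY_rf]
    exact h.gapY a b hab
  sep := by
    intro a b s t hst
    rw [crossD_rf, crossD_rf]
    exact h.sep a b s t hst

theorem Spread.sw (h : Spread pos) : Spread (fun i => sw (pos i)) where
  gapX := by
    intro a b hab
    rw [lineX_sw, lineX_sw]
    exact h.gapY a b hab
  gapY := by
    intro a b hab
    rw [lineY_sw, lineY_sw]
    exact h.gapX a b hab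
  sep := by
    intro a b s t hst
    rw [crossD_sw, crossD_sw]
    exact h.sep b a s t hst

theorem Similar.rf (h : Similar pos pos') :
    Similar (fun i => rf (pos i)) (fun i => rf (pos' i)) where
  spread := h.spread.rf
  spread' := h.spread'.rf
  ordX := by
    intro a b
    rw [lineX_rf, lineX_rf, lineX_rf, lineX_rf]
    have := h.ordX b a
    omega
  ordY := by
    intro a b
    rw [lineY_rf, lineY_rf, lineY_rf, lineY_rf]
    exact h.ordY a b
  cmp := by
    intro a b s t
    rw [crossD_rf, crossD_rf, crossD_rf, crossD_rf]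
    exact h.cmp a b s t

theorem Similar.sw (h : Similar pos pos') :
    Similar (fun i => sw (pos i)) (fun i => sw (pos' i)) where
  spread := h.spread.sw
  spread' := h.spread'.sw
  ordX := by
    intro a b
    rw [lineX_sw, lineX_sw, lineX_sw, lineX_sw]
    exact h.ordY a b
  ordY := by
    intro a b
    rw [lineY_sw, lineY_sw, lineY_sw, lineY_sw]
    exact h.ordX a b
  cmp := by
    intro a b s t
    rw [crossD_sw, crossD_sw, crossD_sw, crossD_sw]
    exact h.cmp b a s t

theorem seedOf_rf (h : Spread pos) (clr : ι → Color) :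
    seedOf (fun i => rf (pos i)) clr = fun z => seedOf pos clr (-z.1, z.2) := by
  funext z
  apply Option.ext
  intro c
  rw [seedOf_eq_some h.inj, seedOf_eq_some h.rf.inj]
  constructor
  · rintro ⟨i, hi, hc⟩
    refine ⟨i, ?_, hc⟩
    rw [← hi]; simp [Pool.Agent.Helper69.TC.rf]
  · rintro ⟨i, hi, hc⟩
    refine ⟨i, ?_, hc⟩
    rw [hi]; simp [Pool.Agent.Helper69.TC.rf]

theorem seedOf_sw (h : Spread pos) (clr : ι → Color) :
    seedOf (fun i => sw (pos i)) (fun i => swapC (clr i)) =
      fun z => (seedOf pos clr (z.2, z.1)).map swapC := by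
  funext z
  apply Option.ext
  intro c
  rw [seedOf_eq_some h.sw.inj, Option.map_eq_some_iff]
  constructor
  · rintro ⟨i, hi, hc⟩
    refine ⟨clr i, (seedOf_eq_some h.inj).mpr ⟨i, ?_, rfl⟩, hc⟩
    rw [← hi]; simp [Pool.Agent.Helper69.TC.sw]
  · rintro ⟨e, he, hc⟩
    obtain ⟨i, hi, hc'⟩ := (seedOf_eq_some h.inj).mp he
    refine ⟨i, ?_, by rw [hc']; exact hc⟩
    rw [hi]; simp [Pool.Agent.Helper69.TC.sw]

theorem Good.rf {g z : Site} {c : Color} (h : Good A g c z) :
    Good (fun z c n => A (-z.1, z.2) c n) (rf g) c (rf z) := by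
  cases c
  · obtain ⟨h1, h2⟩ := h
    refine ⟨h1, ?_⟩
    intro x hx
    simp only [Pool.Agent.Helper69.TC.rf] at hx ⊢
    have h3 := h2 (-x) (by omega)
    have h4 : (-x - g.1).natAbs = (x - -g.1).natAbs := by omega
    rw [h4] at h3; exact h3
  · obtain ⟨h1, h2⟩ := h
    refine ⟨by simp [Pool.Agent.Helper69.TC.rf, h1], ?_⟩
    intro y hy
    simp only [Pool.Agent.Helper69.TC.rf] at hy ⊢
    have h3 := h2 y hy
    simpa using h3
  · have h1 : Chain A g z (dist1 z g) := h
    show Chain _ _ _ (dist1 (Pool.Agent.Helper69.TC.rf z) (Pool.Agent.Helper69.TC.rf g))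
    rw [dist_rf]
    exact h1.reflX

theorem Good.sw {g z : Site} {c : Color} (h : Good A g c z) :
    Good (fun z c n => A (z.2, z.1) (swapC c) n) (sw g) (swapC c) (sw z) := by
  cases c
  · exact h
  · exact h
  · have h1 : Chain A g z (dist1 z g) := h
    show Chain _ _ _ (dist1 (Pool.Agent.Helper69.TC.sw z) (Pool.Agent.Helper69.TC.sw g))
    rw [dist_sw]
    exact h1.swap

theorem Small.rf {d : ℤ × ℤ} (h : Small d) : Small (rf d) := by
  obtain ⟨h1, h2, h3, h4⟩ := h
  refine ⟨?_, ?_, h3, h4⟩ <;> simp only [Pool.Agent.Helper69.TC.rf] <;> omega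

theorem Small.sw {d : ℤ × ℤ} (h : Small d) : Small (sw d) := by
  obtain ⟨h1, h2, h3, h4⟩ := h
  exact ⟨h3, h4, h1, h2⟩

/-- The induction hypothesis used in the transport lemmas. -/
def Hyp (pos pos' : ι → Site) (A A' : Site → Color → ℕ → Prop) (c : Color)
    (a b : Option ι) (d : ℤ × ℤ) (s : ι) : Prop :=
  ∀ (a2 b2 : Option ι) (d2 : ℤ × ℤ), Small d2 →
      dist1 (bs pos a2 b2 d2) (pos s) < dist1 (bs pos a b d) (pos s) →
      dist1 (bs pos' a2 b2 d2) (pos' s) < dist1 (bs pos' a b d) (pos' s) →
      A (bs pos a2 b2 d2) c (dist1 (bs pos a2 b2 d2) (pos s)) →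
      A' (bs pos' a2 b2 d2) c (dist1 (bs pos' a2 b2 d2) (pos' s))

theorem Hyp.rf {c : Color} {a b : Option ι} {d : ℤ × ℤ} {s : ι}
    (H : Hyp pos pos' A A' c a b d s) :
    Hyp (fun i => rf (pos i)) (fun i => rf (pos' i)) (fun z c n => A (-z.1, z.2) c n)
      (fun z c n => A' (-z.1, z.2) c n) c a b (rf d) s := by
  intro a2 b2 d2 hd2 h1 h2 h3
  simp only [bs_rf, dist_rf, rf_rf] at h1 h2 h3 ⊢
  have h4 := H a2 b2 (Pool.Agent.Helper69.TC.rf d2) hd2.rf h1 h2
    (by simpa [Pool.Agent.Helper69.TC.rf] using h3)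
  simpa [Pool.Agent.Helper69.TC.rf] using h4

theorem Hyp.sw {c : Color} {a b : Option ι} {d : ℤ × ℤ} {s : ι}
    (H : Hyp pos pos' A A' c a b d s) :
    Hyp (fun i => sw (pos i)) (fun i => sw (pos' i)) (fun z c n => A (z.2, z.1) (swapC c) n)
      (fun z c n => A' (z.2, z.1) (swapC c) n) (swapC c) b a (sw d) s := by
  intro a2 b2 d2 hd2 h1 h2 h3
  simp only [bs_sw, dist_sw, sw_sw, swapC_swapC] at h1 h2 h3 ⊢
  exact H b2 a2 (Pool.Agent.Helper69.TC.sw d2) hd2.sw h1 h2 h3

section trans

variable [Fintype ι]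

theorem HL (hsim : Similar pos pos') (hA : Growth (seedOf pos clr) A)
    (hA' : Growth (seedOf pos' clr) A') {a b : Option ι} {d : ℤ × ℤ} (hd : Small d) {s : ι}
    (hc : clr s ≠ Color.red) (hlt : (pos s).1 < lineX pos a + d.1)
    (hu : Good A (pos s) (clr s) (lineX pos a + d.1 - 1, lineY pos b + d.2))
    (H : Hyp pos pos' A A' (clr s) a b d s) :
    ∃ c' n', n' ≤ dist1 (bs pos' a b d) (pos' s) ∧ A' (bs pos' a b d) c' n' := by
  have hA1 : Growth (seedOf (fun i => rf (pos i)) clr) (fun z c n => A (-z.1, z.2) c n) := by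
    rw [seedOf_rf hsim.spread]; exact hA.reflX
  have hA1' : Growth (seedOf (fun i => rf (pos' i)) clr) (fun z c n => A' (-z.1, z.2) c n) := by
    rw [seedOf_rf hsim.spread']; exact hA'.reflX
  have h1 := HR (a := a) (b := b) (d := rf d) (s := s) hsim.rf hA1 hA1' hd.rf hc
    (by rw [lineX_rf]; simp only [rf]; omega)
    (by
      have h2 := hu.rf
      have h3 : (lineX (fun i => rf (pos i)) a + (rf d).1 + 1, lineY (fun i => rf (pos i)) b +
          (rf d).2) = rf (lineX pos a + d.1 - 1, lineY pos b + d.2) := by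
        rw [lineX_rf, lineY_rf]
        simp only [rf, Prod.mk.injEq, and_true]; ring
      rw [h3]; exact h2)
    H.rf
  obtain ⟨c', n', hn', h2⟩ := h1
  rw [bs_rf, dist_rf, rf_rf] at hn'
  refine ⟨c', n', hn', ?_⟩
  rw [bs_rf, rf_rf] at h2
  simpa [rf] using h2

theorem HU (hsim : Similar pos pos') (hA : Growth (seedOf pos clr) A)
    (hA' : Growth (seedOf pos' clr) A') {a b : Option ι} {d : ℤ × ℤ} (hd : Small d) {s : ι}
    (hc : clr s ≠ Color.blue) (hlt : lineY pos b + d.2 < (pos s).2)
    (hu : Good A (pos s) (clr s) (lineX pos a + d.1, lineY pos b + d.2 + 1))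
    (H : Hyp pos pos' A A' (clr s) a b d s) :
    ∃ c' n', n' ≤ dist1 (bs pos' a b d) (pos' s) ∧ A' (bs pos' a b d) c' n' := by
  have hA1 : Growth (seedOf (fun i => sw (pos i)) (fun i => swapC (clr i)))
      (fun z c n => A (z.2, z.1) (swapC c) n) := by
    rw [seedOf_sw hsim.spread]; exact hA.swap
  have hA1' : Growth (seedOf (fun i => sw (pos' i)) (fun i => swapC (clr i)))
      (fun z c n => A' (z.2, z.1) (swapC c) n) := by
    rw [seedOf_sw hsim.spread']; exact hA'.swap
  have hc1 : swapC (clr s) ≠ Color.red := by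
    intro h; exact hc (swapC_inj (c' := Color.blue) h)
  have h1 := HR (a := b) (b := a) (d := sw d) (s := s) hsim.sw hA1 hA1' hd.sw hc1
    (by rw [lineX_sw]; exact hlt)
    (by
      have h2 := hu.sw
      rw [lineX_sw, lineY_sw]; exact h2)
    H.sw
  obtain ⟨c', n', hn', h2⟩ := h1
  rw [bs_sw, dist_sw, sw_sw] at hn'
  refine ⟨swapC c', n', hn', ?_⟩
  rw [bs_sw] at h2
  exact h2

theorem HD (hsim : Similar pos pos') (hA : Growth (seedOf pos clr) A)
    (hA' : Growth (seedOf pos' clr) A') {a b : Option ι} {d : ℤ × ℤ} (hd : Small d) {s : ι}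
    (hc : clr s ≠ Color.blue) (hlt : (pos s).2 < lineY pos b + d.2)
    (hu : Good A (pos s) (clr s) (lineX pos a + d.1, lineY pos b + d.2 - 1))
    (H : Hyp pos pos' A A' (clr s) a b d s) :
    ∃ c' n', n' ≤ dist1 (bs pos' a b d) (pos' s) ∧ A' (bs pos' a b d) c' n' := by
  have hA1 : Growth (seedOf (fun i => sw (pos i)) (fun i => swapC (clr i)))
      (fun z c n => A (z.2, z.1) (swapC c) n) := by
    rw [seedOf_sw hsim.spread]; exact hA.swap
  have hA1' : Growth (seedOf (fun i => sw (pos' i)) (fun i => swapC (clr i)))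
      (fun z c n => A' (z.2, z.1) (swapC c) n) := by
    rw [seedOf_sw hsim.spread']; exact hA'.swap
  have hc1 : swapC (clr s) ≠ Color.red := by
    intro h; exact hc (swapC_inj (c' := Color.blue) h)
  have h1 := HL (a := b) (b := a) (d := sw d) (s := s) hsim.sw hA1 hA1' hd.sw hc1
    (by rw [lineX_sw]; exact hlt)
    (by
      have h2 := hu.sw
      rw [lineX_sw, lineY_sw]; exact h2)
    H.sw
  obtain ⟨c', n', hn', h2⟩ := h1
  rw [bs_sw, dist_sw, sw_sw] at hn'
  refine ⟨swapC c', n', hn', ?_⟩
  rw [bs_sw] at h2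
  exact h2

/-! ### The comparison -/

theorem main_step (hsim : Similar pos pos') (hA : Growth (seedOf pos clr) A)
    (hA' : Growth (seedOf pos' clr) A') {a b : Option ι} {d : ℤ × ℤ} (hd : Small d) {s : ι}
    (hw : A (bs pos a b d) (clr s) (dist1 (bs pos a b d) (pos s)))
    (H : Hyp pos pos' A A' (clr s) a b d s)
    (H' : ∀ t, t ≠ s → dist1 (bs pos' a b d) (pos' t) ≤ dist1 (bs pos' a b d) (pos' s) →
      ¬ A' (bs pos' a b d) (clr t) (dist1 (bs pos' a b d) (pos' t))) :
    A' (bs pos' a b d) (clr s) (dist1 (bs pos' a b d) (pos' s)) := by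
  obtain ⟨t, ht1, ht2, ht3⟩ := exists_good hsim.spread hA hw
  have hts : t = s := by
    by_contra hne
    exact dist_ne hsim.spread hd hne ht2
  subst hts
  have hkey : ∃ c' n', n' ≤ dist1 (bs pos' a b d) (pos' t) ∧ A' (bs pos' a b d) c' n' := by
    by_cases h0 : dist1 (bs pos a b d) (pos t) = 0
    · have hd' := hd
      obtain ⟨hd1, hd2, hd3, hd4⟩ := hd'
      have ha : a = some t := by
        by_contra hne
        have h1 := hsim.spread.gapX a (some t) hne
        simp only [dist1, bs, lineX] at h0 h1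
        omega
      have hb : b = some t := by
        by_contra hne
        have h1 := hsim.spread.gapY b (some t) hne
        simp only [dist1, bs, lineY] at h0 h1
        omega
      subst ha
      subst hb
      have e1 : d.1 = 0 := by simp only [dist1, bs, lineX, lineY] at h0; omega
      have e2 : d.2 = 0 := by simp only [dist1, bs, lineX, lineY] at h0; omega
      have e3 : bs pos' (some t) (some t) d = pos' t := by
        simp only [bs, lineX, lineY, e1, e2, add_zero]
      refine ⟨clr t, 0, by omega, ?_⟩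
      rw [e3, hA'.init]
      exact seedOf_pos hsim.spread'.inj t
    · obtain ⟨u, hadj, hug, hud⟩ := good_pred hA hsim.spread.noCoin ht3 h0
      have hx : u = (lineX pos a + d.1 + 1, lineY pos b + d.2) ∧ clr t ≠ Color.red ∨
          u = (lineX pos a + d.1 - 1, lineY pos b + d.2) ∧ clr t ≠ Color.red ∨
          u = (lineX pos a + d.1, lineY pos b + d.2 + 1) ∧ clr t ≠ Color.blue ∨
          u = (lineX pos a + d.1, lineY pos b + d.2 - 1) ∧ clr t ≠ Color.blue := by
        generalize clr t = c at hadj
        cases c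
        · rcases hadj with h1 | h1
          · exact Or.inl ⟨h1, by decide⟩
          · exact Or.inr (Or.inl ⟨h1, by decide⟩)
        · rcases hadj with h1 | h1
          · exact Or.inr (Or.inr (Or.inl ⟨h1, by decide⟩))
          · exact Or.inr (Or.inr (Or.inr ⟨h1, by decide⟩))
        · rcases hadj with h1 | h1 | h1 | h1
          · exact Or.inl ⟨h1, by decide⟩
          · exact Or.inr (Or.inl ⟨h1, by decide⟩)
          · exact Or.inr (Or.inr (Or.inl ⟨h1, by decide⟩))
          · exact Or.inr (Or.inr (Or.inr ⟨h1, by decide⟩))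
      rcases hx with ⟨h1, h2⟩ | ⟨h1, h2⟩ | ⟨h1, h2⟩ | ⟨h1, h2⟩
      · subst h1
        exact HR hsim hA hA' hd h2 (by simp only [bs, dist1] at hud; omega) hug H
      · subst h1
        exact HL hsim hA hA' hd h2 (by simp only [bs, dist1] at hud; omega) hug H
      · subst h1
        exact HU hsim hA hA' hd h2 (by simp only [bs, dist1] at hud; omega) hug H
      · subst h1
        exact HD hsim hA hA' hd h2 (by simp only [bs, dist1] at hud; omega) hug H
  obtain ⟨c', n', hn', hA2⟩ := hkey
  obtain ⟨r, hr1, hr2, hr3⟩ := exists_good hsim.spread' hA' hA2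
  by_cases hrt : r = t
  · subst hrt
    subst hr1
    subst hr2
    exact hA2
  · exfalso
    refine H' r hrt (by omega) ?_
    rw [hr1, hr2]; exact hA2

theorem compare_all (hsim : Similar pos pos') (hA : Growth (seedOf pos clr) A)
    (hA' : Growth (seedOf pos' clr) A') (N : ℕ) :
    ∀ (a b : Option ι) (d : ℤ × ℤ) (s : ι), Small d → dist1 (bs pos a b d) (pos s) = N →
      (A (bs pos a b d) (clr s) (dist1 (bs pos a b d) (pos s)) ↔
        A' (bs pos' a b d) (clr s) (dist1 (bs pos' a b d) (pos' s))) := by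
  induction N using Nat.strong_induction_on with
  | _ N ih =>
    intro a b d s hd hN
    constructor
    · intro hw
      refine main_step hsim hA hA' hd hw ?_ ?_
      · intro a2 b2 d2 hd2 h1 _ h3
        exact (ih _ (by omega) a2 b2 d2 s hd2 rfl).mp h3
      · intro t hts hle hAt
        have h1 := dist_cmp hsim.symm (a := a) (b := b) hd hts hle
        have h2 := (ih _ (by omega) a b d t hd rfl).mpr hAt
        have h3 := hA.time_eq h2 hw
        omega
    · intro hw
      refine main_step hsim.symm hA' hA hd hw ?_ ?_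
      · intro a2 b2 d2 hd2 _ h1 h3
        exact (ih _ (by omega) a2 b2 d2 s hd2 rfl).mpr h3
      · intro t hts hle hAt
        have h1 := dist_ne hsim.spread (a := a) (b := b) hd hts
        have h2 := (ih _ (by omega) a b d t hd rfl).mp hAt
        have h3 := hA'.time_eq h2 hw
        exact dist_ne hsim.spread' (a := a) (b := b) hd hts h3

end trans

theorem bs_origin (pos : ι → Site) : bs pos none none (0, 0) = (0, 0) := by
  simp [bs, lineX, lineY]

section compare

variable [Fintype ι] [DecidableEq ι]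

theorem origin_source {pos : ι → Site} {clr : ι → Color} (h : Spread pos)
    {A : Site → Color → ℕ → Prop} (hA : Growth (seedOf pos clr) A) {c : Color} {n : ℕ}
    (h0 : A (0, 0) c n) : ∃ s : ι, clr s = c ∧ crossD pos none none s = n := by
  obtain ⟨s, h1, h2, _⟩ := exists_good h hA h0
  exact ⟨s, h1, h2⟩

theorem origin_compare {pos pos' : ι → Site} {clr : ι → Color} (h : Similar pos pos')
    {A A' : Site → Color → ℕ → Prop} (hA : Growth (seedOf pos clr) A)
    (hA' : Growth (seedOf pos' clr) A') (s : ι)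
    (h0 : A (0, 0) (clr s) (crossD pos none none s)) :
    A' (0, 0) (clr s) (crossD pos' none none s) := by
  have h1 := compare_all h hA hA' _ none none (0, 0) s ⟨by simp, by simp, by simp, by simp⟩ rfl
  rw [bs_origin, bs_origin] at h1
  exact h1.mp h0

end compare

end Pool.Agent.Helper69.TC
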