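import Mathlib

/-!
Three-colour competing growth on the square lattice: definitions of the process, of its law, and
of the abstract growth relation used in the deterministic part.
-/

set_option autoImplicit false

open MeasureTheory

namespace Pool.Agent.Helper69.TC

/-- Sites of the square lattice. -/
abbrev Site : Type := ℤ × ℤ

/-- The three colours. -/
inductive Color : Type
  | blue
  | red
  | green
  deriving DecidableEq

instance : Fintype Color where
  elems := {Color.blue, Color.red, Color.green}
  complete := by intro x; cases x <;> decide

instance : MeasurableSpace Color := ⊤

instance : MeasurableSpace (Option Color) := ⊤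

/-- `Adj c y x` : the site `y` is a neighbour of `x` from which the colour `c` may spread to `x`.
Blue spreads horizontally, red vertically, green to all four nearest neighbours. -/
def Adj : Color → Site → Site → Prop
  | Color.blue, y, x => y = (x.1 + 1, x.2) ∨ y = (x.1 - 1, x.2)
  | Color.red, y, x => y = (x.1, x.2 + 1) ∨ y = (x.1, x.2 - 1)
  | Color.green, y, x =>
      y = (x.1 + 1, x.2) ∨ y = (x.1 - 1, x.2) ∨ y = (x.1, x.2 + 1) ∨ y = (x.1, x.2 - 1)

/-- A ranking of the three colours, used to break ties. -/
abbrev Ranking : Type := Color ≃ Fin 3

instance : MeasurableSpace Ranking := ⊤

instance : Nonempty Ranking := ⟨Fintype.equivFinOfCardEq (by decide)⟩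

open Classical in
/-- The set of candidate colours of the site `x` when the current colouring is `s`. -/
noncomputable def cand (s : Site → Option Color) (x : Site) : Finset Color :=
  Finset.univ.filter fun c => ∃ y, Adj c y x ∧ s y = some c

/-- The best ranked element of a finite set of colours, `none` if the set is empty. -/
noncomputable def pick (r : Ranking) (S : Finset Color) : Option Color :=
  if h : (S.image r).Nonempty then some (r.symm ((S.image r).min' h)) else none

/-- One step of the dynamics: coloured sites keep their colour, an empty site takes the best ranked
candidate (for the ranking attached to this site and this time). -/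
noncomputable def step (r : Site → Ranking) (s : Site → Option Color) (x : Site) : Option Color :=
  match s x with
  | some c => some c
  | none => pick (r x) (cand s x)

/-- The process started from `s0`, with tie-breaking rankings `r (x, t)`. -/
noncomputable def run (s0 : Site → Option Color) (r : Site × ℕ → Ranking) :
    ℕ → Site → Option Color
  | 0 => s0
  | t + 1 => step (fun x => r (x, t)) (run s0 r t)

/-- The origin is eventually green. -/
def EventuallyGreen (ω : (Site → Option Color) × (Site × ℕ → Ranking)) : Prop :=
  ∃ t : ℕ, run ω.1 ω.2 t (0, 0) = some Color.green

/-- The law of the initial state of one site. -/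
noncomputable def siteLaw (p q : ℝ) : Measure (Option Color) :=
  ENNReal.ofReal p • Measure.dirac (some Color.blue)
    + ENNReal.ofReal p • Measure.dirac (some Color.red)
    + ENNReal.ofReal q • Measure.dirac (some Color.green)
    + ENNReal.ofReal (1 - 2 * p - q) • Measure.dirac none

/-- The uniform law on the six rankings. -/
noncomputable def tieLaw : Measure Ranking := (PMF.uniformOfFintype Ranking).toMeasure

/-- The joint law of the independent initial states and of the independent uniform rankings. -/
noncomputable def law (p q : ℝ) :
    Measure ((Site → Option Color) × (Site × ℕ → Ranking)) :=
  (Measure.infinitePi fun _ : Site => siteLaw p q).prod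
    (Measure.infinitePi fun _ : Site × ℕ => tieLaw)

end Pool.Agent.Helper69.TC
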