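import Pool.Agent.Helper69.TC.Basic

/-!
Further definitions for the proof of the limit theorem (all statements of the modules use these).
-/

set_option autoImplicit false

open MeasureTheory Filter Topology

namespace Pool.Agent.Helper69.TC

/-- `Chain A g z n` : a chain of green sites, coloured at times `0,1,...,n`, from the green seed `g`
to `z`. -/
inductive Chain (A : Site → Color → ℕ → Prop) (g : Site) : Site → ℕ → Prop
  | base : A g Color.green 0 → Chain A g g 0
  | step {y z : Site} {n : ℕ} : Chain A g y n → Adj Color.green y z → A z Color.green (n + 1) →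
      Chain A g z (n + 1)

/-- No green seed and non-green seed are on a common diagonal. -/
def NoCoin (seed : Site → Option Color) : Prop :=
  ∀ (g w : Site) (c : Color), seed g = some Color.green → seed w = some c → c ≠ Color.green →
    (g.1 - w.1).natAbs ≠ (g.2 - w.2).natAbs

section compare

variable {ι : Type}

open Classical in
/-- The initial colouring with seed number `i` at `pos i`, of colour `clr i`. -/
noncomputable def seedOf (pos : ι → Site) (clr : ι → Color) : Site → Option Color := fun z =>
  if h : ∃ i, pos i = z then some (clr h.choose) else none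

/-- Vertical lines: the columns of the seeds, and the column of the origin. -/
def lineX (pos : ι → Site) : Option ι → ℤ
  | none => 0
  | some i => (pos i).1

/-- Horizontal lines: the rows of the seeds, and the row of the origin. -/
def lineY (pos : ι → Site) : Option ι → ℤ
  | none => 0
  | some i => (pos i).2

/-- Distance of the crossing of the lines `a`, `b` to the seed `s`. -/
def crossD (pos : ι → Site) (a b : Option ι) (s : ι) : ℕ :=
  dist1 (lineX pos a, lineY pos b) (pos s)

/-- A configuration of seeds is spread out. -/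
structure Spread (pos : ι → Site) : Prop where
  gapX : ∀ a b : Option ι, a ≠ b → 4 ≤ (lineX pos a - lineX pos b).natAbs
  gapY : ∀ a b : Option ι, a ≠ b → 4 ≤ (lineY pos a - lineY pos b).natAbs
  sep : ∀ (a b : Option ι) (s t : ι), s ≠ t →
    crossD pos a b s + 10 ≤ crossD pos a b t ∨ crossD pos a b t + 10 ≤ crossD pos a b s

/-- Two spread out configurations of seeds have the same combinatorial type. -/
structure Similar (pos pos' : ι → Site) : Prop where
  spread : Spread pos
  spread' : Spread pos'
  ordX : ∀ a b : Option ι, lineX pos a < lineX pos b ↔ lineX pos' a < lineX pos' b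
  ordY : ∀ a b : Option ι, lineY pos a < lineY pos b ↔ lineY pos' a < lineY pos' b
  cmp : ∀ (a b : Option ι) (s t : ι),
    crossD pos a b s < crossD pos a b t ↔ crossD pos' a b s < crossD pos' a b t

end compare

/-- Real lines. -/
def rlineX {k : ℕ} (x : Fin k → ℝ × ℝ) : Option (Fin k) → ℝ
  | none => 0
  | some i => (x i).1

/-- Real lines. -/
def rlineY {k : ℕ} (x : Fin k → ℝ × ℝ) : Option (Fin k) → ℝ
  | none => 0
  | some i => (x i).2

/-- Distance of the crossing of two lines to a seed. -/
def rcrossD {k : ℕ} (x : Fin k → ℝ × ℝ) (a b : Option (Fin k)) (s : Fin k) : ℝ :=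
  |rlineX x a - (x s).1| + |rlineY x b - (x s).2|

/-- Generic real configurations of `k` seeds, for the time horizon `K`. -/
structure Gen {k : ℕ} (K : ℝ) (x : Fin k → ℝ × ℝ) : Prop where
  ix : ∀ a b : Option (Fin k), a ≠ b → rlineX x a ≠ rlineX x b
  iy : ∀ a b : Option (Fin k), a ≠ b → rlineY x a ≠ rlineY x b
  sep : ∀ (a b : Option (Fin k)) (s t : Fin k), s ≠ t → rcrossD x a b s ≠ rcrossD x a b t
  hor : ∀ s, rcrossD x none none s ≠ K
  horx : ∀ s, |(x s).1| ≠ K
  hory : ∀ s, |(x s).2| ≠ K

/-- The lattice configuration at mesh `ε`. -/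
noncomputable def floorPos {k : ℕ} (ε : ℝ) (x : Fin k → ℝ × ℝ) : Fin k → Site := fun i =>
  (⌊(x i).1 / ε⌋, ⌊(x i).2 / ε⌋)

/-- The origin is green by scaled time `K` (mesh `√p`). -/
def GreenBy (p K : ℝ) (ω : (Site → Option Color) × (Site × ℕ → Ranking)) : Prop :=
  ∃ n : ℕ, (n : ℝ) ≤ K / √p ∧ run ω.1 ω.2 n (0, 0) = some Color.green

/-- Weight of a seed colour. -/
def wt (p q : ℝ) : Color → ℝ
  | Color.blue => p
  | Color.red => p
  | Color.green => q

/-- The box of radius `R`. -/
noncomputable def box (R : ℕ) : Finset Site :=
  Finset.Icc (-(R : ℤ)) (R : ℤ) ×ˢ Finset.Icc (-(R : ℤ)) (R : ℤ)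

end Pool.Agent.Helper69.TC
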