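import Pool.Agent.Helper27.TC.Tail
import Pool.Agent.Helper75.TC.FiniteTime

set_option autoImplicit false

open MeasureTheory Filter Topology

namespace Pool.Agent.Helper69.TC

theorem greenBy_imp {p K : ℝ} {ω : (Site → Option Color) × (Site × ℕ → Ranking)}
    (h : GreenBy p K ω) : EventuallyGreen ω := by
  obtain ⟨n, _, hn⟩ := h
  exact ⟨n, hn⟩

theorem measurableSet_greenBy (p K : ℝ) : MeasurableSet {ω | GreenBy p K ω} := by
  have : {ω : (Site → Option Color) × (Site × ℕ → Ranking) | GreenBy p K ω} =
      ⋃ n : ℕ, ⋃ _ : (n : ℝ) ≤ K / √p, (fun ω => run ω.1 ω.2 n (0, 0)) ⁻¹' {some Color.green} := by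
    ext ω; simp [GreenBy]
  rw [this]
  exact MeasurableSet.iUnion fun n => MeasurableSet.iUnion fun _ =>
    measurable_run n (0, 0) (MeasurableSet.of_discrete)

theorem final {c : ℝ} (hc : 0 < c) :
    ∃ l : ℝ, Tendsto (fun p : ℝ => (law p (c * p)).real {ω | EventuallyGreen ω}) (𝓝[>] 0) (𝓝 l) := by
  have hcauchy : Cauchy (Filter.map (fun p : ℝ => (law p (c * p)).real {ω | EventuallyGreen ω})
      (𝓝[>] 0)) := by
    rw [Metric.cauchy_iff]
    refine ⟨Filter.map_neBot, ?_⟩
    intro ε hε
    obtain ⟨K, hK, hlate⟩ := late_unlikely hc (η := ε / 8) (by positivity)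
    obtain ⟨l, hl⟩ := tendsto_greenBy hc hK
    have hsmall : ∀ᶠ p : ℝ in 𝓝[>] 0, 0 < p ∧ 2 * p + c * p ≤ 1 := by
      have h1 : ∀ᶠ p : ℝ in 𝓝[>] 0, p < 1 / (2 + c) :=
        (Ioo_mem_nhdsGT (show (0 : ℝ) < 1 / (2 + c) by positivity)) |>
          fun h => Filter.mem_of_superset h fun p hp => hp.2
      filter_upwards [h1, self_mem_nhdsWithin] with p hp hp0
      refine ⟨hp0, ?_⟩
      rw [lt_div_iff₀ (by positivity)] at hp
      linarith
    have hclose : ∀ᶠ p : ℝ in 𝓝[>] 0,
        dist ((law p (c * p)).real {ω | EventuallyGreen ω}) l < ε / 2 := by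
      have h2 := (Metric.tendsto_nhds.mp hl) (ε / 8) (by positivity)
      filter_upwards [h2, hlate, hsmall] with p h3 h4 h5
      obtain ⟨hp0, hp1⟩ := h5
      have hprob := (isProb hp0.le (by positivity : 0 ≤ c * p) hp1).2
      have hdiff : (law p (c * p)).real {ω | EventuallyGreen ω} =
          (law p (c * p)).real {ω | GreenBy p K ω} +
            (law p (c * p)).real {ω | EventuallyGreen ω ∧ ¬ GreenBy p K ω} := by
        have hset : {ω : (Site → Option Color) × (Site × ℕ → Ranking) | EventuallyGreen ω} =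
            {ω | GreenBy p K ω} ∪ {ω | EventuallyGreen ω ∧ ¬ GreenBy p K ω} := by
          ext ω
          simp only [Set.mem_ofPred_eq, Set.mem_union]
          constructor
          · intro h
            by_cases h' : GreenBy p K ω
            · exact Or.inl h'
            · exact Or.inr ⟨h, h'⟩
          · rintro (h | h)
            · exact greenBy_imp h
            · exact h.1
        rw [hset, measureReal_union]
        · rw [Set.disjoint_left]
          intro ω h1 h2
          exact h2.2 h1
        · exact measurableSet_eventuallyGreen.diff (measurableSet_greenBy p K)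
      rw [hdiff]
      have h6 : 0 ≤ (law p (c * p)).real {ω | EventuallyGreen ω ∧ ¬ GreenBy p K ω} :=
        measureReal_nonneg
      rw [Real.dist_eq, abs_lt] at h3 ⊢
      constructor <;> linarith
    refine ⟨(fun p : ℝ => (law p (c * p)).real {ω | EventuallyGreen ω}) ''
      {p | dist ((law p (c * p)).real {ω | EventuallyGreen ω}) l < ε / 2},
      Filter.image_mem_map hclose, ?_⟩
    rintro _ ⟨p, hp, rfl⟩ _ ⟨q, hq, rfl⟩
    simp only [Set.mem_ofPred_eq] at hp hq
    calc dist _ _ ≤ dist ((law p (c * p)).real {ω | EventuallyGreen ω}) l +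
          dist l ((law q (c * q)).real {ω | EventuallyGreen ω}) := dist_triangle _ _ _
      _ < ε / 2 + ε / 2 := by
          rw [dist_comm l]
          exact add_lt_add hp hq
      _ = ε := by ring
  obtain ⟨l, hl⟩ := CompleteSpace.complete hcauchy
  exact ⟨l, hl⟩

end Pool.Agent.Helper69.TC
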