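import Pool.Agent.Helper69.TC.Defs2

/-!
Symmetries of the growth relation and elementary consequences of the axioms of `Growth`.
-/

set_option autoImplicit false

namespace Pool.Agent.Helper69.TC

variable {seed : Site → Option Color} {A : Site → Color → ℕ → Prop}

/-- Exchange of blue and red. -/
def swapC : Color → Color
  | Color.blue => Color.red
  | Color.red => Color.blue
  | Color.green => Color.green

theorem swapC_swapC (c : Color) : swapC (swapC c) = c := by cases c <;> rfl

theorem swapC_inj {c c' : Color} (h : swapC c = swapC c') : c = c' := by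
  rw [← swapC_swapC c, h, swapC_swapC]

/-- Reflection in the first coordinate. -/
theorem Growth.reflX (hG : Growth seed A) :
    Growth (fun z => seed (-z.1, z.2)) (fun z c n => A (-z.1, z.2) c n) where
  uniq := fun h h' => hG.uniq h h'
  init := fun z c => hG.init _ c
  pred := by
    intro z c n h
    obtain ⟨y, hy, hyA⟩ := hG.pred h
    refine ⟨(-y.1, y.2), ?_, by simpa using hyA⟩
    cases c <;> simp only [Adj, Prod.ext_iff] at hy ⊢ <;> omega
  spread := by
    intro y z c n h hadj
    refine hG.spread h ?_
    cases c <;> simp only [Adj, Prod.ext_iff] at hadj ⊢ <;> omega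

/-- Reflection in the second coordinate. -/
theorem Growth.reflY (hG : Growth seed A) :
    Growth (fun z => seed (z.1, -z.2)) (fun z c n => A (z.1, -z.2) c n) where
  uniq := fun h h' => hG.uniq h h'
  init := fun z c => hG.init _ c
  pred := by
    intro z c n h
    obtain ⟨y, hy, hyA⟩ := hG.pred h
    refine ⟨(y.1, -y.2), ?_, by simpa using hyA⟩
    cases c <;> simp only [Adj, Prod.ext_iff] at hy ⊢ <;> omega
  spread := by
    intro y z c n h hadj
    refine hG.spread h ?_
    cases c <;> simp only [Adj, Prod.ext_iff] at hadj ⊢ <;> omega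

/-- Exchange of the coordinates and of the colours blue and red. -/
theorem Growth.swap (hG : Growth seed A) :
    Growth (fun z => (seed (z.2, z.1)).map swapC) (fun z c n => A (z.2, z.1) (swapC c) n) where
  uniq := fun h h' => ⟨swapC_inj (hG.uniq h h').1, (hG.uniq h h').2⟩
  init := by
    intro z c
    rw [hG.init]
    constructor
    · intro h
      simp only [h, Option.map_some, swapC_swapC]
    · intro h
      obtain ⟨a, ha, hb⟩ := Option.map_eq_some_iff.mp h
      rw [ha, ← hb, swapC_swapC]
  pred := by
    intro z c n h
    obtain ⟨y, hy, hyA⟩ := hG.pred h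
    refine ⟨(y.2, y.1), ?_, by simpa using hyA⟩
    cases c <;> simp only [Adj, swapC, Prod.ext_iff] at hy ⊢ <;> omega
  spread := by
    intro y z c n h hadj
    have h1 : Adj (swapC c) (y.2, y.1) (z.2, z.1) := by
      cases c <;> simp only [Adj, swapC, Prod.ext_iff] at hadj ⊢ <;> omega
    obtain ⟨c', n', hn, h'⟩ := hG.spread h h1
    exact ⟨swapC c', n', hn, by rw [swapC_swapC]; exact h'⟩

/-- Every coloured site comes from a seed of the same colour at distance at most the time. -/
theorem Growth.exists_seed (hG : Growth seed A) {c : Color} {n : ℕ} :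
    ∀ {z : Site}, A z c n → ∃ w, seed w = some c ∧ dist1 w z ≤ n := by
  induction n with
  | zero => intro z h; exact ⟨z, (hG.init z c).mp h, by simp [dist1]⟩
  | succ n ih =>
    intro z h
    obtain ⟨y, hy, hyA⟩ := hG.pred h
    obtain ⟨w, hw, hd⟩ := ih hyA
    refine ⟨w, hw, ?_⟩
    have h1 := adj_dist hy
    have h2 := dist1_triangle w y z
    omega

theorem Growth.color_eq (hG : Growth seed A) {z : Site} {c c' : Color} {n n' : ℕ}
    (h : A z c n) (h' : A z c' n') : c = c' := (hG.uniq h h').1

theorem Growth.time_eq (hG : Growth seed A) {z : Site} {c c' : Color} {n n' : ℕ}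
    (h : A z c n) (h' : A z c' n') : n = n' := (hG.uniq h h').2

end Pool.Agent.Helper69.TC
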